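import Pool.Agent.Lib.MP_0087d5_lc.QF.Voor

/-!
# Few perfect matchings: the union of three perfect matchings

JOB Fake.

`Fk A D t`: `A + D` has row and column sums 3 or 1, `D` (the additional multiplicities) is supported on `A`, and `t` is the number of columns of sum 3 without entries of `D`.

Proof of `fk_bound` by induction on `∑ i, ∑ j, D i j`. Let `B = A + D`.
* `D = 0`: `Reg A n` with `n = #{i | rs A i ≠ 1}`, and `n = t` because `∑ i, rs A i = ∑ j, cs A j` (`3 n + (m - n) = 3 t + (m - t)`). `reg_bound`.
* `D r j ≥ 1`. Then `A r j ≥ 1`, `B r j ≥ 2`, so (sums at most 3) `rs B r = cs B j = 3`.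
  (i) `D r j = 2`: `B r j = 3`, `A r j = 1`, and the other entries of the row `r` and of the column `j` of `A` and `D` are 0. Use `D' = D` with `D' r j = 0` and the same `A`.
  (ii) `D r j = 1`, `B r j = 3`, `A r j = 2`: the other entries are 0. `A' = A` with `A' r j = 1`, `D' = D` with `D' r j = 0`; `A'.permanent ≤ A.permanent` (`per_mono`).
  (iii) `D r j = 1`, `B r j = 2`, `A r j = 1`. The row `r` of `B` has exactly one more unit, at `k ≠ j`, and as `D` is supported on `A` it is a unit of `A`: `A r k = 1`, `D r k = 0`. The column `j` of `B` has exactly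
  one more unit, at the row `l ≠ r`: `A l j = 1`, `D l j = 0`. `A' = mrg A r j k` (same permanent), `D' = D` with `D' r j = 0`. In `A' + D'` the row `r` and the column `j` have sum 1 (entry at `(r, j)`),
  the row `l` has the same sum as in `B` (the unit at `(l, j)` has moved to `(l, k)`), the column `k` has the same sum (it lost the unit `(r, k)`, and got the unit `(l, k)`), the others are
  unchanged.
  In all three cases the column `j` was not counted in `t` and is not counted afterwards (sum 1), the other columns have the same `cs B` and `cs D`, so `t` is unchanged.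
`union_bound`: `A i j = 1` if `i ∈ {j, σ j, τ j}` and `0` otherwise, `D i j = [i = j] + [i = σ j] + [i = τ j] - A i j`. The permanent of `A` is the number of permutations `π` with `π j ∈ {j, σ j, τ j}` for
all `j`. All row and column sums of `A + D` are 3.
-/

set_option autoImplicit false

namespace QFew

open Finset

variable {V : Type*} [Fintype V] [DecidableEq V]

structure Fk (A D : Matrix V V ℕ) (t : ℕ) : Prop where
  blk : Blk (A + D)
  row : ∀ i, rs (A + D) i = 3 ∨ rs (A + D) i = 1
  col : ∀ j, cs (A + D) j = 3 ∨ cs (A + D) j = 1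
  sup : ∀ i j, D i j ≠ 0 → A i j ≠ 0
  num : (univ.filter (fun j => cs (A + D) j ≠ 1 ∧ cs D j = 0)).card = t

private theorem fake_two {f : V → ℕ} {j : V} (h3 : ∑ y, f y = 3) (h2 : f j = 2) :
    ∃ k, k ≠ j ∧ f k = 1 ∧ ∀ y, y ≠ j → y ≠ k → f y = 0 := by
  have h4 : f j + ∑ y ∈ univ.erase j, f y = 3 := by
    rw [Finset.add_sum_erase _ _ (mem_univ j)]; exact h3
  have h5 : ∑ y ∈ univ.erase j, f y = 1 := by omega
  have h6 : ∃ k ∈ univ.erase j, f k ≠ 0 := by
    by_contra hc
    push Not at hc
    have := Finset.sum_eq_zero hc
    omega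
  obtain ⟨k, hk, hk0⟩ := h6
  have h7 : f k + ∑ y ∈ (univ.erase j).erase k, f y = 1 := by
    rw [Finset.add_sum_erase _ _ hk]; exact h5
  have h8 : ∑ y ∈ (univ.erase j).erase k, f y = 0 := by omega
  refine ⟨k, (Finset.mem_erase.1 hk).1, by omega, ?_⟩
  intro y hy hyk
  exact (Finset.sum_eq_zero_iff.1 h8) y (Finset.mem_erase.2 ⟨hyk, Finset.mem_erase.2 ⟨hy, mem_univ y⟩⟩)

private theorem fake_three {f : V → ℕ} {j : V} (h3 : ∑ y, f y = 3) (h2 : 3 ≤ f j) :
    ∀ y, y ≠ j → f y = 0 := by
  have h4 : f j + ∑ y ∈ univ.erase j, f y = 3 := by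
    rw [Finset.add_sum_erase _ _ (mem_univ j)]; exact h3
  have h8 : ∑ y ∈ univ.erase j, f y = 0 := by omega
  intro y hy
  exact (Finset.sum_eq_zero_iff.1 h8) y (Finset.mem_erase.2 ⟨hy, mem_univ y⟩)

private def fkD (D : Matrix V V ℕ) (r j : V) : Matrix V V ℕ :=
  fun x y => if x = r ∧ y = j then 0 else D x y

private theorem fkD_sum_lt {D : Matrix V V ℕ} {r j : V} (h : D r j ≠ 0) :
    ∑ i, ∑ l, fkD D r j i l < ∑ i, ∑ l, D i l := by
  have hle : ∀ x y, fkD D r j x y ≤ D x y := by
    intro x y
    unfold fkD
    split_ifs <;> omega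
  refine Finset.sum_lt_sum (fun i _ => Finset.sum_le_sum (fun l _ => hle i l)) ⟨r, mem_univ r, ?_⟩
  refine Finset.sum_lt_sum (fun l _ => hle r l) ⟨j, mem_univ j, ?_⟩
  have : fkD D r j r j = 0 := by simp [fkD]
  omega

private theorem fkD_cs {D : Matrix V V ℕ} {r j y : V} (h : y ≠ j) : cs (fkD D r j) y = cs D y := by
  unfold cs
  refine Finset.sum_congr rfl (fun x _ => ?_)
  simp [fkD, h]

private theorem rs_add (A D : Matrix V V ℕ) (i : V) : rs (A + D) i = rs A i + rs D i := by
  simp [rs, Finset.sum_add_distrib]

private theorem cs_add (A D : Matrix V V ℕ) (i : V) : cs (A + D) i = cs A i + cs D i := by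
  simp [cs, Finset.sum_add_distrib]

/-- the count of the columns -/
private theorem fake_num {A D A' : Matrix V V ℕ} {t : ℕ} {r j : V} (h : Fk A D t) (hD : D r j ≠ 0)
    (hj : cs (A' + fkD D r j) j = 1) (hy : ∀ y, y ≠ j → cs (A' + fkD D r j) y = cs (A + D) y) :
    (univ.filter (fun y => cs (A' + fkD D r j) y ≠ 1 ∧ cs (fkD D r j) y = 0)).card = t := by
  rw [← h.num]
  congr 1
  ext y
  simp only [mem_filter, mem_univ, true_and]
  by_cases hyj : y = j
  · subst hyj
    constructor
    · intro hh
      exact absurd hj hh.1
    · intro hh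
      have h1 : D r y = 0 := (Finset.sum_eq_zero_iff.1 (show ∑ x, D x y = 0 from hh.2)) r (mem_univ r)
      exact absurd h1 hD
  · rw [hy y hyj, fkD_cs hyj]

private theorem fake_caseA {A D : Matrix V V ℕ} {t : ℕ} {r j : V} (h : Fk A D t) (hD : D r j ≠ 0)
    (hA : A r j ≠ 0) (h3 : 3 ≤ A r j + D r j) : Fk (dea A r j) (fkD D r j) t := by
  have hge : A r j + D r j ≤ rs (A + D) r := by
    unfold rs
    exact Finset.single_le_sum (f := fun y => (A + D) r y) (fun _ _ => Nat.zero_le _) (mem_univ j)
  have hgc : A r j + D r j ≤ cs (A + D) j := by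
    unfold cs
    exact Finset.single_le_sum (f := fun x => (A + D) x j) (fun _ _ => Nat.zero_le _) (mem_univ r)
  have hr3 : rs (A + D) r = 3 := by
    rcases h.row r with h1 | h1 <;> omega
  have hc3 : cs (A + D) j = 3 := by
    rcases h.col j with h1 | h1 <;> omega
  have hrow : ∀ y, y ≠ j → A r y = 0 ∧ D r y = 0 := by
    intro y hy
    have := fake_three (f := fun y => (A + D) r y) (j := j) hr3 h3 y hy
    simp only [Matrix.add_apply] at this
    omega
  have hcol : ∀ x, x ≠ r → A x j = 0 ∧ D x j = 0 := by
    intro y hy
    have := fake_three (f := fun x => (A + D) x j) (j := r) hc3 h3 y hy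
    simp only [Matrix.add_apply] at this
    omega
  have eA : ∀ x y, (dea A r j + fkD D r j) x y = if x = r ∧ y = j then 1 else A x y + D x y := by
    intro x y
    simp only [Matrix.add_apply, dea, fkD]
    by_cases hx : x = r
    · by_cases hy : y = j
      · simp [hx, hy]
      · have := hrow y hy
        simp [hx, hy, this.1]
    · by_cases hy : y = j
      · have := hcol x hx
        simp [hx, hy, this.1]
      · simp [hx, hy]
  have rr : rs (dea A r j + fkD D r j) r = 1 := by
    unfold rs
    rw [Finset.sum_eq_single j]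
    · rw [eA]; simp
    · intro y _ hy
      rw [eA]
      have := hrow y hy
      simp [hy, this.1, this.2]
    · intro hh; exact absurd (mem_univ j) hh
  have cc : cs (dea A r j + fkD D r j) j = 1 := by
    unfold cs
    rw [Finset.sum_eq_single r]
    · rw [eA]; simp
    · intro y _ hy
      rw [eA]
      have := hcol y hy
      simp [hy, this.1, this.2]
    · intro hh; exact absurd (mem_univ r) hh
  have ro : ∀ x, x ≠ r → rs (dea A r j + fkD D r j) x = rs (A + D) x := by
    intro x hx
    unfold rs
    refine Finset.sum_congr rfl (fun y _ => ?_)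
    rw [eA]
    simp [hx]
  have co : ∀ y, y ≠ j → cs (dea A r j + fkD D r j) y = cs (A + D) y := by
    intro y hy
    unfold cs
    refine Finset.sum_congr rfl (fun x _ => ?_)
    rw [eA]
    simp [hy]
  constructor
  · intro x y hxy
    rw [eA] at hxy
    by_cases hx : x = r
    · by_cases hy : y = j
      · subst hx; subst hy
        rw [rr, cc]
      · have := hrow y hy
        rw [hx] at hxy
        simp [hy, this.1, this.2] at hxy
    · by_cases hy : y = j
      · have := hcol x hx
        rw [hy] at hxy
        simp [hx, this.1, this.2] at hxy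
      · rw [ro x hx, co y hy]
        simp only [hx, hy, and_self, if_false] at hxy
        exact h.blk x y (by simpa using hxy)
  · intro x
    by_cases hx : x = r
    · right; rw [hx]; exact rr
    · rw [ro x hx]; exact h.row x
  · intro y
    by_cases hy : y = j
    · right; rw [hy]; exact cc
    · rw [co y hy]; exact h.col y
  · intro x y hxy
    have h1 : ¬ (x = r ∧ y = j) ∧ D x y ≠ 0 := by
      unfold fkD at hxy
      by_cases hc : x = r ∧ y = j
      · exact absurd (if_pos hc) hxy
      · rw [if_neg hc] at hxy
        exact ⟨hc, hxy⟩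
    by_cases hx : x = r
    · have hy : y ≠ j := fun hh => h1.1 ⟨hx, hh⟩
      rw [hx] at h1
      exact absurd (hrow y hy).2 h1.2
    · by_cases hy : y = j
      · rw [hy] at h1
        exact absurd (hcol x hx).2 h1.2
      · simp only [dea, hx, hy, if_false]
        exact h.sup x y h1.2
  · exact fake_num h hD cc co

private theorem fake_caseB {A D : Matrix V V ℕ} {t : ℕ} {r j : V} (h : Fk A D t) (hD : D r j = 1)
    (hA : A r j = 1) : ∃ k, j ≠ k ∧ (∀ y, A r y = if y = j ∨ y = k then 1 else 0) ∧
      Fk (mrg A r j k) (fkD D r j) t := by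
  have hge : A r j + D r j ≤ rs (A + D) r := by
    unfold rs
    exact Finset.single_le_sum (f := fun y => (A + D) r y) (fun _ _ => Nat.zero_le _) (mem_univ j)
  have hgc : A r j + D r j ≤ cs (A + D) j := by
    unfold cs
    exact Finset.single_le_sum (f := fun x => (A + D) x j) (fun _ _ => Nat.zero_le _) (mem_univ r)
  have hr3 : rs (A + D) r = 3 := by
    rcases h.row r with h1 | h1 <;> omega
  have hc3 : cs (A + D) j = 3 := by
    rcases h.col j with h1 | h1 <;> omega
  have hB2 : (A + D) r j = 2 := by
    rw [Matrix.add_apply]; omega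
  obtain ⟨k, hkj, hk1, hk0⟩ := fake_two (f := fun y => (A + D) r y) (j := j) hr3 hB2
  obtain ⟨l, hlr, hl1, hl0⟩ := fake_two (f := fun x => (A + D) x j) (j := r) hc3 hB2
  simp only [Matrix.add_apply] at hk1 hk0 hl1 hl0
  have hDrk : D r k = 0 := by
    by_contra hc
    have := h.sup r k hc
    omega
  have hDlj : D l j = 0 := by
    by_contra hc
    have := h.sup l j hc
    omega
  have hArk : A r k = 1 := by omega
  have hDrow : ∀ y, y ≠ j → D r y = 0 := by
    intro y hy
    by_cases hyk : y = k
    · rw [hyk]; exact hDrk
    · have := hk0 y hy hyk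
      omega
  have hDcol : ∀ x, x ≠ r → D x j = 0 := by
    intro x hx
    by_cases hxl : x = l
    · rw [hxl]; exact hDlj
    · have := hl0 x hx hxl
      omega
  have hArow : ∀ y, A r y = if y = j ∨ y = k then 1 else 0 := by
    intro y
    by_cases hy : y = j
    · rw [if_pos (Or.inl hy), hy]; exact hA
    · by_cases hyk : y = k
      · rw [if_pos (Or.inr hyk), hyk]; exact hArk
      · rw [if_neg (by tauto)]
        have := hk0 y hy hyk
        omega
  have hcD : cs D j = 1 := by
    unfold cs
    rw [Finset.sum_eq_single r]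
    · exact hD
    · intro x _ hx
      exact hDcol x hx
    · intro hh; exact absurd (mem_univ r) hh
  have hcA : cs A j = 2 := by
    have := cs_add A D j
    omega
  refine ⟨k, hkj.symm, hArow, ?_⟩
  -- the sums
  have rr : rs (mrg A r j k + fkD D r j) r = 1 := by
    unfold rs
    rw [Finset.sum_eq_single j]
    · simp [mrg, fkD]
    · intro y _ hy
      have := hDrow y hy
      simp [mrg, fkD, hy, this]
    · intro hh; exact absurd (mem_univ j) hh
  have cc : cs (mrg A r j k + fkD D r j) j = 1 := by
    unfold cs
    rw [Finset.sum_eq_single r]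
    · simp [mrg, fkD]
    · intro x _ hx
      have := hDcol x hx
      simp [mrg, fkD, hx, this]
    · intro hh; exact absurd (mem_univ r) hh
  have ro : ∀ x, x ≠ r → rs (mrg A r j k + fkD D r j) x = rs (A + D) x := by
    intro x hx
    rw [rs_add, rs_add]
    have e1 : rs (fkD D r j) x = rs D x := by
      unfold rs
      refine Finset.sum_congr rfl (fun y _ => ?_)
      simp [fkD, hx]
    have e2 : rs (mrg A r j k) x + A x j = rs A x + A x j := by
      have e3 : ∀ y, mrg A r j k x y + (if y = j then A x j else 0) = A x y + (if y = k then A x j else 0) := by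
        intro y
        by_cases hy : y = j
        · have : j ≠ k := hkj.symm
          simp [mrg, hx, hy, this]
        · by_cases hyk : y = k
          · simp [mrg, hx, hyk, hkj]
          · simp [mrg, hx, hy, hyk]
      have e4 : ∑ y, (mrg A r j k x y + (if y = j then A x j else 0)) = ∑ y, (A x y + (if y = k then A x j else 0)) :=
        Finset.sum_congr rfl (fun y _ => e3 y)
      rw [Finset.sum_add_distrib, Finset.sum_add_distrib, Finset.sum_ite_eq' univ j, Finset.sum_ite_eq' univ k,
        if_pos (mem_univ j), if_pos (mem_univ k)] at e4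
      exact e4
    omega
  have co : ∀ y, y ≠ j → cs (mrg A r j k + fkD D r j) y = cs (A + D) y := by
    intro y hy
    rw [cs_add, cs_add, fkD_cs hy]
    congr 1
    by_cases hyk : y = k
    · rw [hyk]
      have e3 : ∀ x, mrg A r j k x k + (if x = r then 2 else 0) = A x k + A x j := by
        intro x
        by_cases hx : x = r
        · simp [mrg, hx, hkj, hArk, hA]
        · simp [mrg, hx, hkj]
      have e4 : ∑ x, (mrg A r j k x k + (if x = r then 2 else 0)) = ∑ x, (A x k + A x j) :=
        Finset.sum_congr rfl (fun x _ => e3 x)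
      rw [Finset.sum_add_distrib, Finset.sum_add_distrib, Finset.sum_ite_eq' univ r,
        if_pos (mem_univ r)] at e4
      have e5 : cs (mrg A r j k) k + 2 = cs A k + cs A j := e4
      omega
    · unfold cs
      refine Finset.sum_congr rfl (fun x _ => ?_)
      by_cases hx : x = r
      · have := hArow y
        simp only [hy, hyk, or_self, if_false] at this
        simp [mrg, hx, hy, this]
      · simp [mrg, hx, hy, hyk]
  have hkc : cs (A + D) k ≠ 1 := by
    intro hc
    have h1 := (h.blk r k (by rw [Matrix.add_apply]; omega)).2 hc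
    omega
  constructor
  · intro x y hxy
    by_cases hx : x = r
    · by_cases hy : y = j
      · subst hx; subst hy
        rw [rr, cc]
      · have := hDrow y hy
        rw [hx] at hxy
        simp [mrg, fkD, hy, this] at hxy
    · by_cases hy : y = j
      · have := hDcol x hx
        rw [hy] at hxy
        simp [mrg, fkD, hx, this] at hxy
      · rw [ro x hx, co y hy]
        by_cases hyk : y = k
        · by_cases hxj : A x j = 0
          · refine h.blk x y ?_
            rw [hyk] at hxy ⊢
            simp only [Matrix.add_apply, mrg, fkD, hx, hkj, false_and, if_false, if_true, hxj] at hxy ⊢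
            omega
          · have h1 := h.blk x j (by rw [Matrix.add_apply]; omega)
            rw [hyk]
            constructor
            · intro h2
              have := h1.1 h2
              omega
            · intro h2
              exact absurd h2 hkc
        · refine h.blk x y ?_
          simp only [Matrix.add_apply, mrg, fkD, hx, hy, hyk, false_and, if_false] at hxy ⊢
          exact hxy
  · intro x
    by_cases hx : x = r
    · right; rw [hx]; exact rr
    · rw [ro x hx]; exact h.row x
  · intro y
    by_cases hy : y = j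
    · right; rw [hy]; exact cc
    · rw [co y hy]; exact h.col y
  · intro x y hxy
    have h1 : ¬ (x = r ∧ y = j) ∧ D x y ≠ 0 := by
      unfold fkD at hxy
      by_cases hc : x = r ∧ y = j
      · exact absurd (if_pos hc) hxy
      · rw [if_neg hc] at hxy
        exact ⟨hc, hxy⟩
    by_cases hx : x = r
    · have hy : y ≠ j := fun hh => h1.1 ⟨hx, hh⟩
      rw [hx] at h1
      exact absurd (hDrow y hy) h1.2
    · by_cases hy : y = j
      · rw [hy] at h1
        exact absurd (hDcol x hx) h1.2
      · have h2 := h.sup x y h1.2
        by_cases hyk : y = k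
        · rw [hyk] at h2 ⊢
          simp only [mrg, hx, hkj, if_false, if_true]
          omega
        · simp only [mrg, hx, hy, hyk, if_false]
          exact h2
  · exact fake_num h (by omega) cc co

private theorem fake_base {A D : Matrix V V ℕ} {t : ℕ} (h : Fk A D t) (hD : ∀ i j, D i j = 0) :
    4 ^ t ≤ 3 ^ t * A.permanent := by
  have hD0 : D = 0 := by
    ext i j
    exact hD i j
  subst hD0
  have hb := h.blk
  have hr := h.row
  have hc := h.col
  have hn := h.num
  rw [add_zero] at hb hr hc hn
  have hn2 : (univ.filter (fun y => cs A y ≠ 1)).card = t := by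
    rw [← hn]
    congr 1
    ext y
    simp [cs]
  have e1 : ∑ i, rs A i = ∑ j, cs A j := by
    unfold rs cs
    exact Finset.sum_comm
  have e2 : ∀ (f : V → ℕ), (∀ x, f x = 3 ∨ f x = 1) →
      ∑ x, f x = 2 * (univ.filter (fun x => f x ≠ 1)).card + Fintype.card V := by
    intro f hf
    have e3 : ∀ x, f x = 2 * (if f x ≠ 1 then 1 else 0) + 1 := by
      intro x
      rcases hf x with h1 | h1
      · simp [h1]
      · simp [h1]
    calc ∑ x, f x = ∑ x, (2 * (if f x ≠ 1 then 1 else 0) + 1) := Finset.sum_congr rfl (fun x _ => e3 x)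
      _ = 2 * (univ.filter (fun x => f x ≠ 1)).card + Fintype.card V := by
        rw [Finset.sum_add_distrib, ← Finset.mul_sum, Finset.card_filter]
        simp
  have e4 := e2 _ hr
  have e5 := e2 _ hc
  refine reg_bound (n := t) ⟨hb, hr, hc, ?_⟩
  omega

theorem fk_bound {A D : Matrix V V ℕ} {t : ℕ} (h : Fk A D t) : 4 ^ t ≤ 3 ^ t * A.permanent := by
  induction hN : ∑ i, ∑ l, D i l using Nat.strong_induction_on generalizing A D with
  | _ N IH =>
    by_cases h0 : ∀ i j, D i j = 0
    · exact fake_base h h0
    · push Not at h0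
      obtain ⟨r, j, hrj⟩ := h0
      have hA := h.sup r j hrj
      have hlt := fkD_sum_lt hrj
      by_cases h3 : 3 ≤ A r j + D r j
      · have hF := fake_caseA h hrj hA h3
        have h1 := IH _ (by rw [← hN]; exact hlt) hF rfl
        refine h1.trans (Nat.mul_le_mul_left _ (per_mono ?_))
        intro x y
        unfold dea
        split_ifs with h4 h5 h6
        · rw [h4, h5]; omega
        · exact Nat.zero_le _
        · exact Nat.zero_le _
        · exact le_refl _
      · obtain ⟨k, hjk, hrow, hF⟩ := fake_caseB h (r := r) (j := j) (by omega) (by omega)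
        have h1 := IH _ (by rw [← hN]; exact hlt) hF rfl
        rw [per_mrg A hjk hrow] at h1
        exact h1

/-- the number of permutations `π` with `π i ∈ {i, σ i, τ i}` for all `i` is at least `(4/3) ^ t`, `t` being the number of the points with `i, σ i, τ i` distinct -/
theorem union_bound (σ τ : Equiv.Perm V) :
    4 ^ (univ.filter (fun i => σ i ≠ i ∧ τ i ≠ i ∧ σ i ≠ τ i)).card ≤
      3 ^ (univ.filter (fun i => σ i ≠ i ∧ τ i ≠ i ∧ σ i ≠ τ i)).card *
        (univ.filter (fun π : Equiv.Perm V => ∀ i, π i = i ∨ π i = σ i ∨ π i = τ i)).card := by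
  let B : Matrix V V ℕ := fun i j => (if i = j then 1 else 0) + (if i = σ j then 1 else 0) + (if i = τ j then 1 else 0)
  let A : Matrix V V ℕ := fun i j => if i = j ∨ i = σ j ∨ i = τ j then 1 else 0
  let D : Matrix V V ℕ := fun i j => B i j - A i j
  have hAB : ∀ i j, A i j ≤ B i j := by
    intro i j
    change (if i = j ∨ i = σ j ∨ i = τ j then 1 else 0) ≤
      (if i = j then 1 else 0) + (if i = σ j then 1 else 0) + (if i = τ j then 1 else 0)
    split_ifs <;> first | omega | (exfalso; tauto)
  have hAD : A + D = B := by
    ext i j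
    have := hAB i j
    change A i j + (B i j - A i j) = B i j
    omega
  have hcs : ∀ j, cs (A + D) j = 3 := by
    intro j
    rw [hAD]
    change ∑ i, ((if i = j then 1 else 0) + (if i = σ j then 1 else 0) + (if i = τ j then 1 else 0)) = 3
    rw [Finset.sum_add_distrib, Finset.sum_add_distrib, Finset.sum_ite_eq' univ j, Finset.sum_ite_eq' univ (σ j),
      Finset.sum_ite_eq' univ (τ j)]
    simp
  have hrs : ∀ i, rs (A + D) i = 3 := by
    intro i
    rw [hAD]
    change ∑ j, ((if i = j then 1 else 0) + (if i = σ j then 1 else 0) + (if i = τ j then 1 else 0)) = 3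
    have e : ∀ ρ : Equiv.Perm V, ∑ j, (if i = ρ j then 1 else 0) = (1 : ℕ) := by
      intro ρ
      have e2 : ∀ j, (if i = ρ j then 1 else 0) = (if ρ.symm i = j then (1 : ℕ) else 0) := by
        intro j
        by_cases h1 : i = ρ j
        · rw [if_pos h1, if_pos (by rw [h1, Equiv.symm_apply_apply])]
        · rw [if_neg h1, if_neg]
          intro h2
          apply h1
          rw [← h2, Equiv.apply_symm_apply]
      rw [Finset.sum_congr rfl (fun j _ => e2 j), Finset.sum_ite_eq, if_pos (mem_univ _)]
    rw [Finset.sum_add_distrib, Finset.sum_add_distrib, e σ, e τ, Finset.sum_ite_eq univ i, if_pos (mem_univ _)]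
  have hsup : ∀ i j, D i j ≠ 0 → A i j ≠ 0 := by
    intro i j h1 h2
    apply h1
    change (if i = j ∨ i = σ j ∨ i = τ j then 1 else 0) = 0 at h2
    have h3 : ¬ (i = j ∨ i = σ j ∨ i = τ j) := by
      intro h4
      rw [if_pos h4] at h2
      exact absurd h2 one_ne_zero
    push Not at h3
    change B i j - A i j = 0
    have h5 : B i j = 0 := by
      change (if i = j then 1 else 0) + (if i = σ j then 1 else 0) + (if i = τ j then 1 else 0) = 0
      simp [h3.1, h3.2.1, h3.2.2]
    omega
  have hD0 : ∀ j, cs D j = 0 ↔ (σ j ≠ j ∧ τ j ≠ j ∧ σ j ≠ τ j) := by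
    intro j
    have e0 : cs D j = 0 ↔ ∀ i, B i j - A i j = 0 := by
      change ∑ i, D i j = 0 ↔ _
      rw [Finset.sum_eq_zero_iff]
      constructor
      · intro h i
        exact h i (mem_univ i)
      · intro h i _
        exact h i
    rw [e0]
    constructor
    · intro h
      refine ⟨?_, ?_, ?_⟩
      · intro hc
        have h1 := h j
        change (if j = j then 1 else 0) + (if j = σ j then 1 else 0) + (if j = τ j then 1 else 0) -
          (if j = j ∨ j = σ j ∨ j = τ j then 1 else 0) = 0 at h1
        rw [if_pos rfl, if_pos hc.symm, if_pos (Or.inl rfl)] at h1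
        omega
      · intro hc
        have h1 := h j
        change (if j = j then 1 else 0) + (if j = σ j then 1 else 0) + (if j = τ j then 1 else 0) -
          (if j = j ∨ j = σ j ∨ j = τ j then 1 else 0) = 0 at h1
        rw [if_pos rfl, if_pos (show j = τ j from hc.symm), if_pos (Or.inl rfl)] at h1
        omega
      · intro hc
        have h1 := h (σ j)
        change (if σ j = j then 1 else 0) + (if σ j = σ j then 1 else 0) + (if σ j = τ j then 1 else 0) -
          (if σ j = j ∨ σ j = σ j ∨ σ j = τ j then 1 else 0) = 0 at h1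
        rw [if_pos (show σ j = σ j from rfl), if_pos hc, if_pos (Or.inr (Or.inl rfl))] at h1
        omega
    · rintro ⟨h1, h2, h3⟩ i
      change (if i = j then 1 else 0) + (if i = σ j then 1 else 0) + (if i = τ j then 1 else 0) -
          (if i = j ∨ i = σ j ∨ i = τ j then 1 else 0) = 0
      by_cases g1 : i = j
      · have g2 : i ≠ σ j := by rw [g1]; exact h1.symm
        have g3 : i ≠ τ j := by rw [g1]; exact h2.symm
        rw [if_pos g1, if_neg g2, if_neg g3, if_pos (Or.inl g1)]
      · by_cases g2 : i = σ j
        · have g3 : i ≠ τ j := by rw [g2]; exact h3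
          rw [if_neg g1, if_pos g2, if_neg g3, if_pos (Or.inr (Or.inl g2))]
        · by_cases g3 : i = τ j
          · rw [if_neg g1, if_neg g2, if_pos g3, if_pos (Or.inr (Or.inr g3))]
          · rw [if_neg g1, if_neg g2, if_neg g3, if_neg (by tauto)]
  have hF : Fk A D (univ.filter (fun i => σ i ≠ i ∧ τ i ≠ i ∧ σ i ≠ τ i)).card := by
    constructor
    · intro i j _
      rw [hrs i, hcs j]
    · intro i
      left
      exact hrs i
    · intro j
      left
      exact hcs j
    · exact hsup
    · congr 1
      ext j
      simp only [mem_filter, mem_univ, true_and]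
      rw [hcs j, hD0 j]
      constructor
      · intro h
        exact h.2
      · intro h
        exact ⟨by omega, h⟩
  have h1 := fk_bound hF
  refine h1.trans (le_of_eq ?_)
  congr 1
  rw [Matrix.permanent, Finset.card_filter]
  refine Finset.sum_congr rfl (fun π _ => ?_)
  by_cases hπ : ∀ i, π i = i ∨ π i = σ i ∨ π i = τ i
  · rw [if_pos hπ]
    refine Finset.prod_eq_one (fun i _ => ?_)
    change (if π i = i ∨ π i = σ i ∨ π i = τ i then 1 else 0) = 1
    rw [if_pos (hπ i)]
  · rw [if_neg hπ]
    push Not at hπ
    obtain ⟨i, hi⟩ := hπ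
    refine Finset.prod_eq_zero (mem_univ i) ?_
    change (if π i = i ∨ π i = σ i ∨ π i = τ i then 1 else 0) = 0
    rw [if_neg (by tauto)]

end QFew
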