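import Pool.Agent.Lib.MP_0087d5_lc.QF.Iter

/-!
# Few perfect matchings: graphs

JOB Graph.

Let `f` be a perfect matching of `H` (exists by `h1`), `F1 = F0 ∪ f(F0)`, `χ` a 2-colouring of `G` (values in `Fin 2`), `V = {x // x ∉ F1 ∧ χ x = 0}`. Outside `F1` (so outside `F0`) `H` and `G` agree, so
every edge of `H` outside `F1` has ends of different colours. `f` maps the complement of `F1` to itself (`F1` is closed under the involution `f`).
Let `E x y = H.Adj x (f y)` on `V`; it is reflexive. For `π ∈ sup E` let `g_π x = f (π x)` for `x ∈ V`, `g_π (f y) = π⁻¹ y` for `y ∈ V`, `g_π = f` on `F1` (for `z ∉ F1` with `χ z ≠ 0`: `z = f y` with `y = f z ∈ V`).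
`g_π` is a perfect matching of `H` and `π ↦ g_π` is injective. So `(sup E).card ≤ 2 ^ k`.
`structure_perm` gives `F' ⊆ V` with `|F'| ≤ (6 k L ^ 3 + 2) k`, where `L = Nat.log 2 (card V) + 2 ≤ Nat.log 2 n + 2`. Let `F = F1 ∪ F' ∪ f(F')`. Its size is at most `2 |F0| + 2 |F'|`, and it is closed under `f`.
Uniqueness: let `g` be a perfect matching of `H` which agrees with `f` on `F`. For `x ∈ V`: if `x ∈ F` then `g x = f x`; otherwise `g x ∉ F` (if `g x ∈ F` then `x = g (g x) = f (g x) ∈ F`). In both cases `g x ∉ F1`: so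
`f (g x) ∈ V`: it is not in `F1`, and `x, g x` are adjacent in `G`, `g x, f (g x)` are adjacent in `G`, so `χ (f (g x)) = χ x = 0`. Let `π x = f (g x)`: an injective map `V → V`, a permutation,
`E x (π x)` is `H.Adj x (g x)`, and `π x = f (f x) = x` for `x ∈ F'`. So `π = 1`, `g x = f x` for all `x ∈ V`. For `z ∉ F1` with `χ z ≠ 0`: `y = f z ∈ V`, `g y = f y = z`, so `g z = y = f z`.
-/

set_option autoImplicit false

namespace QFew

open Finset

/-- `f` is a perfect matching of `H` (as a map) -/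
def IsPM {n : ℕ} (H : SimpleGraph (Fin n)) (f : Fin n → Fin n) : Prop :=
  (∀ v, f (f v) = v) ∧ ∀ v, H.Adj v (f v)

theorem graph_struct {n : ℕ} (G H : SimpleGraph (Fin n)) (F0 : Finset (Fin n)) (hG : G.Colorable 2)
    (hGH : ∀ u, u ∉ F0 → ∀ v, v ∉ F0 → (G.Adj u v ↔ H.Adj u v)) {k : ℕ}
    (h1 : 1 ≤ Nat.card {f // IsPM H f}) (h2 : Nat.card {f // IsPM H f} ≤ 2 ^ k) :
    ∃ (F : Finset (Fin n)) (f : Fin n → Fin n), F0 ⊆ F ∧
      F.card ≤ 2 * F0.card + 2 * ((6 * k * (Nat.log 2 n + 2) ^ 3 + 2) * k) ∧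
      IsPM H f ∧ (∀ x ∈ F, f x ∈ F) ∧ ∀ g, IsPM H g → (∀ x ∈ F, g x = f x) → g = f := by
  classical
  have hne : Nonempty {f // IsPM H f} := by
    by_contra hcon
    rw [not_nonempty_iff] at hcon
    rw [Nat.card_of_isEmpty] at h1
    omega
  obtain ⟨f, hf1, hf2⟩ := hne
  obtain ⟨χ⟩ : Nonempty (G.Coloring (Fin 2)) := hG
  have fin2 : ∀ a b : Fin 2, a ≠ b → a ≠ 0 → b = 0 := by decide
  have fin2' : ∀ a b c : Fin 2, a ≠ b → b ≠ c → c = a := by decide
  set F1 : Finset (Fin n) := F0 ∪ F0.image f with hF1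
  have hsub01 : F0 ⊆ F1 := subset_union_left
  have hcl : ∀ z ∈ F1, f z ∈ F1 := by
    intro z hz
    rcases mem_union.1 hz with h | h
    · exact mem_union_right _ (mem_image_of_mem f h)
    · obtain ⟨w, hw, rfl⟩ := mem_image.1 h
      rw [hf1]
      exact mem_union_left _ hw
  have hcl' : ∀ z, z ∉ F1 → f z ∉ F1 := by
    intro z hz h
    have h3 := hcl _ h
    rw [hf1] at h3
    exact hz h3
  have hχ : ∀ u v, u ∉ F1 → v ∉ F1 → H.Adj u v → χ u ≠ χ v := by
    intro u v hu hv huv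
    exact χ.valid ((hGH u (fun h => hu (hsub01 h)) v (fun h => hv (hsub01 h))).2 huv)
  let V : Type := {x : Fin n // x ∉ F1 ∧ χ x = 0}
  have hfV : ∀ z, z ∉ F1 → χ z ≠ 0 → f z ∉ F1 ∧ χ (f z) = 0 := by
    intro z hz hc
    have h3 := hχ z (f z) hz (hcl' z hz) (hf2 z)
    exact ⟨hcl' z hz, fin2 _ _ h3 hc⟩
  have hfV' : ∀ y : V, ¬ (f y.1 ∉ F1 ∧ χ (f y.1) = 0) := by
    rintro ⟨y, hy1, hy2⟩ ⟨h3, h4⟩
    have h5 := hχ y (f y) hy1 h3 (hf2 y)
    rw [hy2, h4] at h5
    exact h5 rfl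
  let E : V → V → Prop := fun x y => H.Adj x.1 (f y.1)
  have hE : ∀ i, E i i := fun i => hf2 i.1
  let gm : Equiv.Perm V → Fin n → Fin n := fun π z =>
    if h : z ∉ F1 ∧ χ z = 0 then f (π ⟨z, h⟩).1
    else if h' : f z ∉ F1 ∧ χ (f z) = 0 then (π⁻¹ ⟨f z, h'⟩).1 else f z
  have inv1 : ∀ (π : Equiv.Perm V) (x : V), π⁻¹ (π x) = x := fun π x => π.symm_apply_apply x
  have inv2 : ∀ (π : Equiv.Perm V) (x : V), π (π⁻¹ x) = x := fun π x => π.apply_symm_apply x
  have gm1 : ∀ (π : Equiv.Perm V) (x : V), gm π x.1 = f (π x).1 := by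
    intro π x
    change (if h : x.1 ∉ F1 ∧ χ x.1 = 0 then f (π ⟨x.1, h⟩).1
      else if h' : f x.1 ∉ F1 ∧ χ (f x.1) = 0 then (π⁻¹ ⟨f x.1, h'⟩).1 else f x.1) = _
    rw [dif_pos x.2]
  have gm2 : ∀ (π : Equiv.Perm V) (y : V), gm π (f y.1) = (π⁻¹ y).1 := by
    intro π y
    change (if h : f y.1 ∉ F1 ∧ χ (f y.1) = 0 then f (π ⟨f y.1, h⟩).1
      else if h' : f (f y.1) ∉ F1 ∧ χ (f (f y.1)) = 0 then (π⁻¹ ⟨f (f y.1), h'⟩).1
        else f (f y.1)) = _
    have h4 : f (f y.1) ∉ F1 ∧ χ (f (f y.1)) = 0 := by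
      rw [hf1]
      exact y.2
    rw [dif_neg (hfV' y), dif_pos h4]
    have h5 : (⟨f (f y.1), h4⟩ : V) = y := Subtype.ext (hf1 y.1)
    rw [h5]
  have gm3 : ∀ (π : Equiv.Perm V) (z : Fin n), ¬ (z ∉ F1 ∧ χ z = 0) →
      ¬ (f z ∉ F1 ∧ χ (f z) = 0) → gm π z = f z := by
    intro π z h3 h4
    change (if h : z ∉ F1 ∧ χ z = 0 then f (π ⟨z, h⟩).1
      else if h' : f z ∉ F1 ∧ χ (f z) = 0 then (π⁻¹ ⟨f z, h'⟩).1 else f z) = _
    rw [dif_neg h3, dif_neg h4]
  have hgm : ∀ π ∈ sup E, IsPM H (gm π) := by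
    intro π hπ
    have hπ' := mem_sup.1 hπ
    refine ⟨fun z => ?_, fun z => ?_⟩
    · by_cases h3 : z ∉ F1 ∧ χ z = 0
      · have h5 := gm1 π ⟨z, h3⟩
        change gm π z = _ at h5
        rw [h5, gm2 π (π ⟨z, h3⟩), inv1]
      · by_cases h4 : f z ∉ F1 ∧ χ (f z) = 0
        · have h5 := gm2 π ⟨f z, h4⟩
          change gm π (f (f z)) = _ at h5
          rw [hf1] at h5
          rw [h5, gm1 π (π⁻¹ ⟨f z, h4⟩), inv2]
          exact hf1 z
        · rw [gm3 π z h3 h4, gm3 π (f z) h4 (by rw [hf1]; exact h3), hf1]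
    · by_cases h3 : z ∉ F1 ∧ χ z = 0
      · have h5 := gm1 π ⟨z, h3⟩
        change gm π z = _ at h5
        rw [h5]
        exact hπ' ⟨z, h3⟩
      · by_cases h4 : f z ∉ F1 ∧ χ (f z) = 0
        · have h5 := gm2 π ⟨f z, h4⟩
          change gm π (f (f z)) = _ at h5
          rw [hf1] at h5
          rw [h5]
          have h6 := hπ' (π⁻¹ ⟨f z, h4⟩)
          rw [inv2] at h6
          change H.Adj (π⁻¹ ⟨f z, h4⟩).1 (f (f z)) at h6
          rw [hf1] at h6
          exact h6.symm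
        · rw [gm3 π z h3 h4]
          exact hf2 z
  have hcard : (sup E).card ≤ 2 ^ k := by
    refine le_trans ?_ h2
    have h3 : Nat.card {π // π ∈ sup E} = (sup E).card := by
      rw [Nat.card_eq_fintype_card, Fintype.card_coe]
    rw [← h3]
    refine Nat.card_le_card_of_injective
      (fun π : {π // π ∈ sup E} => (⟨gm π.1, hgm π.1 π.2⟩ : {f // IsPM H f})) ?_
    intro π π' h4
    have h5 : gm π.1 = gm π'.1 := congrArg Subtype.val h4
    refine Subtype.ext (Equiv.ext fun x => ?_)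
    have h6 := congrFun h5 x.1
    rw [gm1, gm1] at h6
    have h7 := congrArg f h6
    rw [hf1, hf1] at h7
    exact Subtype.ext h7
  obtain ⟨F', hF'1, hF'2⟩ := structure_perm hE hcard
  have hVn : Fintype.card V ≤ n := by
    have h3 := Fintype.card_subtype_le (fun x : Fin n => x ∉ F1 ∧ χ x = 0)
    rwa [Fintype.card_fin] at h3
  have hF'card : F'.card ≤ (6 * k * (Nat.log 2 n + 2) ^ 3 + 2) * k := by
    refine hF'1.trans ?_
    gcongr
  refine ⟨F1 ∪ (F'.image (fun x => x.1) ∪ F'.image (fun x => f x.1)), f,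
    hsub01.trans subset_union_left, ?_, ⟨hf1, hf2⟩, ?_, ?_⟩
  · have h3 : F1.card ≤ 2 * F0.card := by
      refine (card_union_le _ _).trans ?_
      have := card_image_le (s := F0) (f := f)
      omega
    have h4 := card_union_le F1 (F'.image (fun x => x.1) ∪ F'.image (fun x => f x.1))
    have h5 := card_union_le (F'.image (fun x => x.1)) (F'.image (fun x => f x.1))
    have h6 := card_image_le (s := F') (f := fun x => x.1)
    have h7 := card_image_le (s := F') (f := fun x => f x.1)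
    omega
  · intro x hx
    rcases mem_union.1 hx with h | h
    · exact mem_union_left _ (hcl x h)
    · refine mem_union_right _ ?_
      rcases mem_union.1 h with h | h
      · obtain ⟨y, hy, rfl⟩ := mem_image.1 h
        exact mem_union_right _ (mem_image.2 ⟨y, hy, rfl⟩)
      · obtain ⟨y, hy, rfl⟩ := mem_image.1 h
        exact mem_union_left _ (mem_image.2 ⟨y, hy, (hf1 y.1).symm⟩)
  · rintro g ⟨hg1, hg2⟩ hgF
    set F : Finset (Fin n) := F1 ∪ (F'.image (fun x => x.1) ∪ F'.image (fun x => f x.1)) with hF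
    have hFcl : ∀ x ∈ F, f x ∈ F := by
      intro x hx
      rcases mem_union.1 hx with h | h
      · exact mem_union_left _ (hcl x h)
      · refine mem_union_right _ ?_
        rcases mem_union.1 h with h | h
        · obtain ⟨y, hy, rfl⟩ := mem_image.1 h
          exact mem_union_right _ (mem_image.2 ⟨y, hy, rfl⟩)
        · obtain ⟨y, hy, rfl⟩ := mem_image.1 h
          exact mem_union_left _ (mem_image.2 ⟨y, hy, (hf1 y.1).symm⟩)
    have hgV : ∀ x : V, f (g x.1) ∉ F1 ∧ χ (f (g x.1)) = 0 := by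
      intro x
      have h3 : g x.1 ∉ F1 := by
        by_cases hx : x.1 ∈ F
        · rw [hgF x.1 hx]
          exact hcl' x.1 x.2.1
        · intro h4
          have h5 : g x.1 ∈ F := mem_union_left _ h4
          have h6 := hgF _ h5
          rw [hg1] at h6
          rw [h6] at hx
          exact hx (hFcl _ h5)
      have h4 := hcl' _ h3
      refine ⟨h4, ?_⟩
      have h5 := hχ x.1 (g x.1) x.2.1 h3 (hg2 x.1)
      have h6 := hχ (g x.1) (f (g x.1)) h3 h4 (hf2 _)
      rw [fin2' _ _ _ h5 h6]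
      exact x.2.2
    let p : V → V := fun x => ⟨f (g x.1), hgV x⟩
    have hpinj : Function.Injective p := by
      intro x y hxy
      have h3 : f (g x.1) = f (g y.1) := congrArg Subtype.val hxy
      have h4 := congrArg f h3
      rw [hf1, hf1] at h4
      have h5 := congrArg g h4
      rw [hg1, hg1] at h5
      exact Subtype.ext h5
    let π : Equiv.Perm V := Equiv.ofBijective p (Finite.injective_iff_bijective.1 hpinj)
    have hπp : ∀ x, π x = p x := fun x => rfl
    have hπ1 : π ∈ sup E := by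
      rw [mem_sup]
      intro x
      change H.Adj x.1 (f (f (g x.1)))
      rw [hf1]
      exact hg2 x.1
    have hπ2 : π = 1 := by
      refine hF'2 π hπ1 fun x hx => ?_
      rw [hπp]
      refine Subtype.ext ?_
      change f (g x.1) = x.1
      have h3 : x.1 ∈ F := mem_union_right _ (mem_union_left _ (mem_image.2 ⟨x, hx, rfl⟩))
      rw [hgF x.1 h3, hf1]
    have hgx : ∀ x : V, g x.1 = f x.1 := by
      intro x
      have h3 : π x = x := by
        rw [hπ2]
        rfl
      rw [hπp] at h3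
      have h4 : f (g x.1) = x.1 := congrArg Subtype.val h3
      have h5 := congrArg f h4
      rwa [hf1] at h5
    funext z
    by_cases hz : z ∈ F1
    · exact hgF z (mem_union_left _ hz)
    · by_cases hc : χ z = 0
      · exact hgx ⟨z, hz, hc⟩
      · have h3 := hgx ⟨f z, hfV z hz hc⟩
        change g (f z) = f (f z) at h3
        rw [hf1] at h3
        have h4 := congrArg g h3
        rw [hg1] at h4
        exact h4.symm

end QFew
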