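import Pool.Agent.Lib.MP_0087d5_lc.QF.Pack

/-!
# Few perfect matchings: a small set of vertices forces uniqueness (permutations)

JOB Greedy: `greedy`. JOB Iter: `heavy`, `structure_perm`.

`greedy`. Let `m = card V` (if `m = 0` all permutations are equal, contradiction with `2 ≤ P.card`). Choose the `π a` one after the other, minimising the potential `Φ = ∑ v, 2 ^ (load v)` (a real or rational number or a natural number):
claim: for `i ≤ s` there are `π 0, ..., π (i-1)` in `P \ {1}` with `Φ ≤ m (1 + 2/K) ^ i`. Step: the average over `π ∈ P \ {1}` (at least `|P| / 2` elements) of the new potential is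
`∑ v, 2 ^ (load v) (1 + q v)` with `q v = #{π ∈ P | π v ≠ v} / (|P| - 1) ≤ (|P| / K) / (|P| / 2) = 2 / K`. At the end `2 ^ (load v) ≤ Φ ≤ m (1 + 2/K) ^ s ≤ m exp (2 s / K) ≤ m e ≤ 4 m`, so
`load v ≤ Nat.log 2 (4 m) = Nat.log 2 m + 2`. (For `K = 0`: `s = 0`.)

`heavy`. Let `L = Nat.log 2 (card V) + 2`, `K = 6 k L ^ 3 + 2`. If the conclusion is false, `greedy` with `s = 3 k L ^ 3 + 1` gives permutations which contradict `packing`.

`structure_perm`. For a set `F` let `E_F i j = E i j ∧ (i ∈ F ∨ j ∈ F → i = j)`. Then `sup E_F = {π ∈ sup E | ∀ x ∈ F, π x = x}`. Claim, by induction on `q`: there is `F` with `|F| ≤ q` such that `|sup E_F| ≤ 1` or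
`|sup E_F| K ^ q ≤ 2 ^ k (K - 1) ^ q`. Step: if `2 ≤ |sup E_F|`, `heavy` for `E_F` gives `v` with `|sup E_F| < |{π ∈ sup E_F | π v ≠ v}| K`, so `|sup E_(F ∪ {v})| K ≤ |sup E_F| (K - 1)`. For `q = K k`, `k ≥ 1`:
`2 ^ k (1 - 1/K) ^ (K k) ≤ 2 ^ k exp (- k) < 1` while `|sup E_F| ≥ 1` (identity). So `|sup E_F| ≤ 1`. (`k = 0`: `F = ∅`.)
-/

set_option autoImplicit false

namespace QFew

open Finset

variable {V : Type*} [Fintype V] [DecidableEq V]

private theorem greedy_step (P : Finset (Equiv.Perm V)) (h1 : 1 ∈ P) (hN : 2 ≤ P.card) {K : ℕ}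
    (hK : ∀ v, (P.filter (fun π => π v ≠ v)).card * K ≤ P.card) (ld : V → ℕ) :
    ∃ ρ ∈ P, ρ ≠ 1 ∧ (∑ v, 2 ^ (ld v + if ρ v ≠ v then 1 else 0)) * K ≤
      (∑ v, 2 ^ ld v) * (K + 2) := by
  by_contra hcon
  have hQc : (P.erase 1).card + 1 = P.card := Finset.card_erase_add_one h1
  have hlt : ∀ ρ ∈ P.erase 1, (∑ v, 2 ^ ld v) * (K + 2) <
      (∑ v, 2 ^ (ld v + if ρ v ≠ v then 1 else 0)) * K := by
    intro ρ hρ
    rw [Finset.mem_erase] at hρ
    by_contra h
    exact hcon ⟨ρ, hρ.2, hρ.1, not_lt.1 h⟩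
  have hne : (P.erase 1).Nonempty := by
    rw [← Finset.card_pos]
    omega
  have h2 := Finset.sum_lt_sum_of_nonempty hne hlt
  rw [Finset.sum_const, smul_eq_mul, ← Finset.sum_mul, Finset.sum_comm] at h2
  have h3 : ∀ v, (∑ ρ ∈ P.erase 1, 2 ^ (ld v + if ρ v ≠ v then 1 else 0)) * K ≤
      2 ^ ld v * ((K + 2) * (P.erase 1).card) := by
    intro v
    have e1 : ∀ ρ ∈ P.erase 1, 2 ^ (ld v + if ρ v ≠ v then 1 else 0) =
        2 ^ ld v * (1 + if ρ v ≠ v then 1 else 0) := by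
      intro ρ _
      by_cases h : ρ v ≠ v
      · rw [if_pos h, pow_succ]
      · rw [if_neg h, add_zero, add_zero, mul_one]
    rw [Finset.sum_congr rfl e1, ← Finset.mul_sum, Finset.sum_add_distrib, Finset.sum_const,
      smul_eq_mul, mul_one, ← Finset.card_filter, mul_assoc]
    refine Nat.mul_le_mul_left _ ?_
    have e2 : ((P.erase 1).filter (fun π => π v ≠ v)).card * K ≤ P.card := by
      refine le_trans (Nat.mul_le_mul_right K (Finset.card_le_card ?_)) (hK v)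
      exact Finset.filter_subset_filter _ (Finset.erase_subset _ _)
    calc ((P.erase 1).card + ((P.erase 1).filter (fun π => π v ≠ v)).card) * K =
        (P.erase 1).card * K + ((P.erase 1).filter (fun π => π v ≠ v)).card * K := by ring
      _ ≤ (P.erase 1).card * K + P.card := Nat.add_le_add_left e2 _
      _ ≤ (P.erase 1).card * K + 2 * (P.erase 1).card := by omega
      _ = (K + 2) * (P.erase 1).card := by ring
  have h4 : (∑ v, ∑ ρ ∈ P.erase 1, 2 ^ (ld v + if ρ v ≠ v then 1 else 0)) * K ≤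
      (P.erase 1).card * ((∑ v, 2 ^ ld v) * (K + 2)) := by
    rw [Finset.sum_mul]
    refine (Finset.sum_le_sum fun v _ => h3 v).trans (le_of_eq ?_)
    rw [← Finset.sum_mul]
    ring
  exact absurd h2 (not_lt.2 h4)

private theorem greedy_aux (P : Finset (Equiv.Perm V)) (h1 : 1 ∈ P) (hN : 2 ≤ P.card) {K : ℕ}
    (hK : ∀ v, (P.filter (fun π => π v ≠ v)).card * K ≤ P.card) (i : ℕ) :
    ∃ π : Fin i → Equiv.Perm V, (∀ a, π a ∈ P ∧ π a ≠ 1) ∧
      (∑ v, 2 ^ (univ.filter (fun a => π a v ≠ v)).card) * K ^ i ≤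
        Fintype.card V * (K + 2) ^ i := by
  induction i with
  | zero =>
    refine ⟨Fin.elim0, fun a => a.elim0, ?_⟩
    simp
  | succ i ih =>
    obtain ⟨π, hπ, hΦ⟩ := ih
    obtain ⟨ρ, hρ, hρ1, hst⟩ := greedy_step P h1 hN hK
      (fun v => (univ.filter (fun a => π a v ≠ v)).card)
    refine ⟨Fin.snoc (α := fun _ => Equiv.Perm V) π ρ, fun a => ?_, ?_⟩
    · refine Fin.lastCases ?_ (fun a => ?_) a
      · rw [Fin.snoc_last (α := fun _ => Equiv.Perm V)]
        exact ⟨hρ, hρ1⟩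
      · rw [Fin.snoc_castSucc (α := fun _ => Equiv.Perm V)]
        exact hπ a
    · have e1 : ∀ v, (univ.filter (fun a : Fin (i + 1) =>
          (Fin.snoc (α := fun _ => Equiv.Perm V) π ρ : Fin (i + 1) → Equiv.Perm V) a v ≠ v)).card =
          (univ.filter (fun a => π a v ≠ v)).card + if ρ v ≠ v then 1 else 0 := by
        intro v
        rw [Finset.card_filter, Finset.card_filter, Fin.sum_univ_castSucc]
        simp only [Fin.snoc_castSucc (α := fun _ => Equiv.Perm V),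
          Fin.snoc_last (α := fun _ => Equiv.Perm V)]
      have e2 : (∑ v, 2 ^ (univ.filter (fun a : Fin (i + 1) =>
          (Fin.snoc (α := fun _ => Equiv.Perm V) π ρ : Fin (i + 1) → Equiv.Perm V) a v ≠ v)).card) =
          ∑ v, 2 ^ ((univ.filter (fun a => π a v ≠ v)).card + if ρ v ≠ v then 1 else 0) :=
        Finset.sum_congr rfl fun v _ => by rw [e1 v]
      rw [e2]
      calc (∑ v, 2 ^ ((univ.filter (fun a => π a v ≠ v)).card + if ρ v ≠ v then 1 else 0)) *
            K ^ (i + 1) =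
          (∑ v, 2 ^ ((univ.filter (fun a => π a v ≠ v)).card + if ρ v ≠ v then 1 else 0)) * K *
            K ^ i := by ring
        _ ≤ (∑ v, 2 ^ (univ.filter (fun a => π a v ≠ v)).card) * (K + 2) * K ^ i :=
          Nat.mul_le_mul_right _ hst
        _ = (∑ v, 2 ^ (univ.filter (fun a => π a v ≠ v)).card) * K ^ i * (K + 2) := by ring
        _ ≤ Fintype.card V * (K + 2) ^ i * (K + 2) := Nat.mul_le_mul_right _ hΦ
        _ = Fintype.card V * (K + 2) ^ (i + 1) := by ring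

private theorem greedy_num {K s m Φ : ℕ} (hK : 0 < K) (hs : 2 * s ≤ K)
    (h : Φ * K ^ s ≤ m * (K + 2) ^ s) : Φ ≤ m * 4 := by
  have hKR : (0 : ℝ) < K := by exact_mod_cast hK
  have h1 : (Φ : ℝ) * (K : ℝ) ^ s ≤ m * ((K : ℝ) + 2) ^ s := by exact_mod_cast h
  have h2 : ((K : ℝ) + 2) ^ s ≤ (K : ℝ) ^ s * 4 := by
    have e1 : (K : ℝ) + 2 = K * (1 + 2 / K) := by field_simp
    rw [e1, mul_pow]
    refine mul_le_mul_of_nonneg_left ?_ (by positivity)
    have e2 : (1 + 2 / (K : ℝ)) ≤ Real.exp (2 / K) := by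
      have := Real.add_one_le_exp (2 / (K : ℝ))
      linarith
    have e3 : (1 + 2 / (K : ℝ)) ^ s ≤ Real.exp (2 / K) ^ s :=
      pow_le_pow_left₀ (by positivity) e2 s
    rw [← Real.exp_nat_mul] at e3
    have e4 : (s : ℝ) * (2 / K) ≤ 1 := by
      rw [mul_div_assoc', div_le_one hKR]
      have : ((2 * s : ℕ) : ℝ) ≤ K := by exact_mod_cast hs
      push_cast at this
      linarith
    have e5 : Real.exp ((s : ℝ) * (2 / K)) ≤ Real.exp 1 := Real.exp_le_exp.2 e4
    have e6 := Real.exp_one_lt_d9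
    linarith
  have h3 : (Φ : ℝ) * (K : ℝ) ^ s ≤ (m * 4) * (K : ℝ) ^ s := by
    calc (Φ : ℝ) * (K : ℝ) ^ s ≤ m * ((K : ℝ) + 2) ^ s := h1
      _ ≤ m * ((K : ℝ) ^ s * 4) := mul_le_mul_of_nonneg_left h2 (by positivity)
      _ = (m * 4) * (K : ℝ) ^ s := by ring
  have h4 := le_of_mul_le_mul_right h3 (by positivity)
  exact_mod_cast h4

theorem greedy (P : Finset (Equiv.Perm V)) (h1 : 1 ∈ P) (hN : 2 ≤ P.card) {K s : ℕ}
    (hK : ∀ v, (P.filter (fun π => π v ≠ v)).card * K ≤ P.card) (hs : 2 * s ≤ K) :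
    ∃ π : Fin s → Equiv.Perm V, (∀ a, π a ∈ P ∧ π a ≠ 1) ∧
      ∀ v, (univ.filter (fun a => π a v ≠ v)).card ≤ Nat.log 2 (Fintype.card V) + 2 := by
  obtain ⟨π, hπ, hΦ⟩ := greedy_aux P h1 hN hK s
  refine ⟨π, hπ, fun v => ?_⟩
  rcases Nat.eq_zero_or_pos K with h0 | h0
  · have hs0 : s = 0 := by omega
    subst hs0
    simp
  · have h2 : 2 ^ (univ.filter (fun a => π a v ≠ v)).card ≤ Fintype.card V * 4 := by
      refine le_trans ?_ (greedy_num h0 hs hΦ)
      exact Finset.single_le_sum (f := fun v => 2 ^ (univ.filter (fun a => π a v ≠ v)).card)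
        (fun _ _ => Nat.zero_le _) (Finset.mem_univ v)
    have h3 := Nat.le_log_of_pow_le (by norm_num : 1 < 2) h2
    have hm : Fintype.card V ≠ 0 := (Fintype.card_pos_iff.2 ⟨v⟩).ne'
    have h4 : Nat.log 2 (Fintype.card V * 4) = Nat.log 2 (Fintype.card V) + 2 := by
      have e : Fintype.card V * 4 = Fintype.card V * 2 * 2 := by ring
      rw [e, Nat.log_mul_base (by norm_num) (by omega), Nat.log_mul_base (by norm_num) hm]
    rw [h4] at h3
    exact h3

theorem heavy {E : V → V → Prop} (hE : ∀ i, E i i) {k : ℕ} (hN : (sup E).card ≤ 2 ^ k)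
    (h2 : 2 ≤ (sup E).card) :
    ∃ v, (sup E).card < ((sup E).filter (fun π => π v ≠ v)).card *
      (6 * k * (Nat.log 2 (Fintype.card V) + 2) ^ 3 + 2) := by
  by_contra hcon
  push Not at hcon
  obtain ⟨L, hL⟩ : ∃ L, L = Nat.log 2 (Fintype.card V) + 2 := ⟨_, rfl⟩
  have h1 : (1 : Equiv.Perm V) ∈ sup E := mem_sup.2 fun i => hE i
  obtain ⟨π, hπ1, hπ2⟩ := greedy (K := 6 * k * (Nat.log 2 (Fintype.card V) + 2) ^ 3 + 2)
    (s := 3 * k * (Nat.log 2 (Fintype.card V) + 2) ^ 3 + 1) (sup E) h1 h2 hcon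
    (le_of_eq (by ring))
  have h3 := packing hE hN π hπ1 hπ2
  omega

private def iterE (E : V → V → Prop) (F : Finset V) (i j : V) : Prop :=
  E i j ∧ (i ∈ F ∨ j ∈ F → i = j)

private theorem iter_refl {E : V → V → Prop} (hE : ∀ i, E i i) (F : Finset V) (i : V) :
    iterE E F i i := ⟨hE i, fun _ => rfl⟩

private theorem iter_mem {E : V → V → Prop} {F : Finset V} {π : Equiv.Perm V} :
    π ∈ sup (iterE E F) ↔ π ∈ sup E ∧ ∀ x ∈ F, π x = x := by
  rw [mem_sup, mem_sup]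
  constructor
  · intro h
    exact ⟨fun i => (h i).1, fun x hx => ((h x).2 (Or.inl hx)).symm⟩
  · rintro ⟨h1, h2⟩ i
    refine ⟨h1 i, ?_⟩
    rintro (hi | hi)
    · exact (h2 i hi).symm
    · exact (π.injective (h2 _ hi)).symm

private theorem iter_bern (a n : ℕ) : a ^ (n + 1) + (n + 1) * a ^ n ≤ (a + 1) ^ (n + 1) := by
  induction n with
  | zero => simp
  | succ n ih =>
    calc a ^ (n + 1 + 1) + (n + 1 + 1) * a ^ (n + 1)
        ≤ (a ^ (n + 1) + (n + 1) * a ^ n) * (a + 1) := by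
          have : (a ^ (n + 1) + (n + 1) * a ^ n) * (a + 1) =
              a ^ (n + 1 + 1) + (n + 1 + 1) * a ^ (n + 1) + (n + 1) * a ^ n := by ring
          rw [this]
          exact Nat.le_add_right _ _
      _ ≤ (a + 1) ^ (n + 1) * (a + 1) := Nat.mul_le_mul_right _ ih
      _ = (a + 1) ^ (n + 1 + 1) := (pow_succ _ _).symm

private theorem iter_lt {a : ℕ} (ha : 1 ≤ a) : 2 * a ^ (a + 1) < (a + 1) ^ (a + 1) := by
  have h1 := iter_bern a a
  have h2 : (a + 1) * a ^ a = a ^ (a + 1) + a ^ a := by ring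
  have h3 : 0 < a ^ a := Nat.pow_pos ha
  omega

private theorem iter_step {E : V → V → Prop} (hE : ∀ i, E i i) {k a : ℕ}
    (hN : (sup E).card ≤ 2 ^ k)
    (ha : a + 1 = 6 * k * (Nat.log 2 (Fintype.card V) + 2) ^ 3 + 2) (q : ℕ) :
    ∃ F : Finset V, F.card ≤ q ∧ ((sup (iterE E F)).card ≤ 1 ∨
      (sup (iterE E F)).card * (a + 1) ^ q ≤ 2 ^ k * a ^ q) := by
  induction q with
  | zero =>
    refine ⟨∅, le_of_eq card_empty, Or.inr ?_⟩
    rw [pow_zero, pow_zero, mul_one, mul_one]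
    exact (card_le_card fun π hπ => (iter_mem.1 hπ).1).trans hN
  | succ q ih =>
    obtain ⟨F, hF, hF1 | hF2⟩ := ih
    · exact ⟨F, hF.trans (Nat.le_succ q), Or.inl hF1⟩
    by_cases h2 : (sup (iterE E F)).card ≤ 1
    · exact ⟨F, hF.trans (Nat.le_succ q), Or.inl h2⟩
    push Not at h2
    have hN' : (sup (iterE E F)).card ≤ 2 ^ k :=
      (card_le_card fun π hπ => (iter_mem.1 hπ).1).trans hN
    obtain ⟨v, hv⟩ := heavy (iter_refl hE F) hN' h2
    rw [← ha] at hv
    refine ⟨insert v F, (card_insert_le v F).trans (Nat.succ_le_succ hF), Or.inr ?_⟩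
    have e1 : sup (iterE E (insert v F)) = (sup (iterE E F)).filter (fun π => ¬ π v ≠ v) := by
      ext π
      rw [mem_filter, iter_mem, iter_mem, not_not]
      constructor
      · rintro ⟨h3, h4⟩
        exact ⟨⟨h3, fun x hx => h4 x (mem_insert_of_mem hx)⟩, h4 v (mem_insert_self v F)⟩
      · rintro ⟨⟨h3, h4⟩, h5⟩
        refine ⟨h3, fun x hx => ?_⟩
        rcases mem_insert.1 hx with rfl | hx'
        · exact h5
        · exact h4 x hx'
    have e2 := card_filter_add_card_filter_not (s := sup (iterE E F)) (fun π => π v ≠ v)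
    rw [← e1] at e2
    obtain ⟨N, hNd⟩ : ∃ N, N = (sup (iterE E F)).card := ⟨_, rfl⟩
    obtain ⟨M, hM⟩ : ∃ M, M = ((sup (iterE E F)).filter (fun π => π v ≠ v)).card := ⟨_, rfl⟩
    obtain ⟨N', hN''⟩ : ∃ N', N' = (sup (iterE E (insert v F))).card := ⟨_, rfl⟩
    rw [← hNd, ← hM] at hv
    rw [← hNd] at hF2
    rw [← hM, ← hN'', ← hNd] at e2
    rw [← hN'']
    have e3 : N' * (a + 1) ≤ N * a := by
      have e4 : M * (a + 1) + N' * (a + 1) = N * a + N := by
        rw [← Nat.add_mul, e2]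
        ring
      omega
    calc N' * (a + 1) ^ (q + 1) = (N' * (a + 1)) * (a + 1) ^ q := by ring
      _ ≤ (N * a) * (a + 1) ^ q := Nat.mul_le_mul_right _ e3
      _ = (N * (a + 1) ^ q) * a := by ring
      _ ≤ (2 ^ k * a ^ q) * a := Nat.mul_le_mul_right _ hF2
      _ = 2 ^ k * a ^ (q + 1) := by ring

/-- if at most `2 ^ k` permutations are supported by the reflexive relation `E`, there is a set `F` of few points such that only the identity is supported by `E` and fixes the points of `F` -/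
theorem structure_perm {E : V → V → Prop} (hE : ∀ i, E i i) {k : ℕ} (hN : (sup E).card ≤ 2 ^ k) :
    ∃ F : Finset V, F.card ≤ (6 * k * (Nat.log 2 (Fintype.card V) + 2) ^ 3 + 2) * k ∧
      ∀ π ∈ sup E, (∀ x ∈ F, π x = x) → π = 1 := by
  obtain ⟨a, ha⟩ : ∃ a, a + 1 = 6 * k * (Nat.log 2 (Fintype.card V) + 2) ^ 3 + 2 := ⟨_, rfl⟩
  obtain ⟨F, hF, hc⟩ := iter_step hE hN ha ((a + 1) * k)
  refine ⟨F, by rw [← ha]; exact hF, ?_⟩
  have h1 : (1 : Equiv.Perm V) ∈ sup (iterE E F) :=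
    iter_mem.2 ⟨mem_sup.2 fun i => hE i, fun x _ => rfl⟩
  have hle : (sup (iterE E F)).card ≤ 1 := by
    rcases hc with hc | hc
    · exact hc
    rcases Nat.eq_zero_or_pos k with hk | hk
    · subst hk
      simp only [mul_zero, pow_zero, mul_one] at hc
      exact hc
    · exfalso
      have hpos : 1 ≤ (sup (iterE E F)).card := card_pos.2 ⟨1, h1⟩
      have h2 : (a + 1) ^ ((a + 1) * k) ≤ 2 ^ k * a ^ ((a + 1) * k) := by
        calc (a + 1) ^ ((a + 1) * k) = 1 * (a + 1) ^ ((a + 1) * k) := (one_mul _).symm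
          _ ≤ (sup (iterE E F)).card * (a + 1) ^ ((a + 1) * k) := Nat.mul_le_mul_right _ hpos
          _ ≤ _ := hc
      rw [pow_mul, pow_mul, ← mul_pow] at h2
      have ha1 : 1 ≤ a := by omega
      have h3 := Nat.pow_lt_pow_left (iter_lt ha1) hk.ne'
      omega
  intro π hπ hfix
  exact card_le_one.1 hle π (iter_mem.2 ⟨hπ, hfix⟩) 1 h1

end QFew
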