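import Pool.Agent.Lib.MP_0087d5_lc.QF.Graph
import Pool.Agent.Lib.MP_0087d5_lc.ZNear

/-!
# Few perfect matchings: small nullity

`arith`: `k = ℓ ^ c`, `ℓ ≥ 2`, `ℓ + 2 ≤ 2 ℓ`.

`near_quasi`: `graph_struct` with `k = (Nat.log 2 n) ^ c` gives `F' ⊇ F` and `f`. Let `H'` be the graph with `H'.Adj u v ↔ H.Adj u v ∧ (u ∈ F' ∨ v ∈ F' → v = f u)` (symmetric, `f` is an involution). It agrees with `H`, hence with
`G`, outside `F'`. `f` is its only perfect matching, so the determinant of its adjacency matrix is not zero.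
-/

set_option autoImplicit false

namespace QFew

open Finset

theorem arith {c ℓ : ℕ} (h : 2 ≤ ℓ) {a : ℕ} (ha : a ≤ ℓ ^ c) :
    2 * (2 * a + 2 * ((6 * ℓ ^ c * (ℓ + 2) ^ 3 + 2) * ℓ ^ c)) ≤ ℓ ^ (2 * c + 11) := by
  have e : ℓ ^ (2 * c + 11) = ℓ ^ 8 * (ℓ ^ c * ℓ ^ c * ℓ ^ 3) := by ring
  have h8 : 256 ≤ ℓ ^ 8 := by
    have : 2 ^ 8 ≤ ℓ ^ 8 := Nat.pow_le_pow_left h 8
    simpa using this
  have h3 : (ℓ + 2) ^ 3 ≤ 8 * ℓ ^ 3 := by
    have : (ℓ + 2) ^ 3 ≤ (2 * ℓ) ^ 3 := Nat.pow_le_pow_left (by omega) 3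
    calc (ℓ + 2) ^ 3 ≤ (2 * ℓ) ^ 3 := this
      _ = 8 * ℓ ^ 3 := by ring
  have hx : 1 ≤ ℓ ^ c := Nat.one_le_pow _ _ (by omega)
  have hl3 : 8 ≤ ℓ ^ 3 := by
    have : 2 ^ 3 ≤ ℓ ^ 3 := Nat.pow_le_pow_left h 3
    simpa using this
  rw [e]
  set x := ℓ ^ c with hxd
  set y := ℓ ^ 3 with hyd
  have h1 : (6 * x * (ℓ + 2) ^ 3 + 2) * x ≤ (6 * x * (8 * y) + 2) * x :=
    Nat.mul_le_mul_right _ (by gcongr)
  have h2 : x ≤ x * x := Nat.le_mul_of_pos_left _ hx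
  have h4 : 8 * (x * x) ≤ x * x * y := by
    rw [mul_comm 8]
    exact Nat.mul_le_mul_left _ hl3
  have h5 : (6 * x * (8 * y) + 2) * x = 48 * (x * x * y) + 2 * x := by ring
  have h6 : 256 * (x * x * y) ≤ ℓ ^ 8 * (x * x * y) := Nat.mul_le_mul_right _ h8
  omega

/-- the determinant of the adjacency matrix of a graph with exactly one perfect matching is not zero -/
theorem adx_det_unique {n : ℕ} (H : SimpleGraph (Fin n)) {f : Fin n → Fin n} (hf : IsPM H f)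
    (hu : ∀ g, IsPM H g → g = f) :
    (Pool.Agent.PMNC.adx H (Pool.Agent.PMNC.wE 1) (RatFunc.X : RatFunc ℚ)).det ≠ 0 := by
  classical
  open Pool.Agent.PMNC Polynomial in
  have h6 := detW_of_unique (A := H.Adj) (w := wE 1) (fun x y h => h.symm) (wE_comm 1)
    (a := tw (wE 1) f) ⟨f, ⟨hf, rfl⟩, fun g hg => hu g hg.1⟩
  have h7 : (Pool.Agent.PMNC.mxw H.Adj (Pool.Agent.PMNC.wE 1)).det ≠ 0 := by
    intro hc
    rw [hc, map_zero] at h6
    exact absurd h6 (by decide)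
  let φ : Polynomial ℤ →+* Pool.Agent.PMNC.YS := Polynomial.eval₂RingHom (Int.castRingHom Pool.Agent.PMNC.YS) PowerSeries.X
  have h8 : φ.mapMatrix (Pool.Agent.PMNC.adx H (Pool.Agent.PMNC.wE 1) (Polynomial.X : Polynomial ℤ)) = Pool.Agent.PMNC.mxw H.Adj (Pool.Agent.PMNC.wE 1) := by
    ext1 u v
    unfold Pool.Agent.PMNC.adx Pool.Agent.PMNC.mxw
    simp only [RingHom.mapMatrix_apply, Matrix.map_apply, Matrix.of_apply]
    by_cases h : H.Adj u v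
    · rw [if_pos h, if_pos h, map_pow]
      congr 1
      exact Polynomial.eval₂_X _ _
    · rw [if_neg h, if_neg h, map_zero]
  have h9 : (Pool.Agent.PMNC.adx H (Pool.Agent.PMNC.wE 1) (Polynomial.X : Polynomial ℤ)).det ≠ 0 := by
    intro hc
    apply h7
    rw [← h8, ← RingHom.map_det, hc, map_zero]
  have h10 : Pool.Agent.PMNC.tRF.mapMatrix (Pool.Agent.PMNC.adx H (Pool.Agent.PMNC.wE 1) (Polynomial.X : Polynomial ℤ)) = Pool.Agent.PMNC.adx H (Pool.Agent.PMNC.wE 1) (RatFunc.X : RatFunc ℚ) := by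
    ext1 u v
    unfold Pool.Agent.PMNC.adx
    simp only [RingHom.mapMatrix_apply, Matrix.map_apply, Matrix.of_apply]
    by_cases h : H.Adj u v
    · rw [if_pos h, if_pos h, map_pow, Pool.Agent.PMNC.tRF_X]
    · rw [if_neg h, if_neg h, map_zero]
  rw [← h10, ← RingHom.map_det]
  intro hc
  exact h9 (Pool.Agent.PMNC.tRF_inj (by rw [hc, map_zero]))

theorem near_quasi {n c : ℕ} (hn : 4 ≤ n) {G H : SimpleGraph (Fin n)} (hG : G.Colorable 2)
    {F : Finset (Fin n)} (hF : F.card ≤ (Nat.log 2 n) ^ c)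
    (hGH : ∀ u, u ∉ F → ∀ v, v ∉ F → (G.Adj u v ↔ H.Adj u v))
    (h1 : 1 ≤ Nat.card {M : H.Subgraph // M.IsPerfectMatching})
    (h2 : Nat.card {M : H.Subgraph // M.IsPerfectMatching} ≤ 2 ^ (Nat.log 2 n) ^ c) :
    Pool.Agent.PMNC.cls (2 * c + 11) 0 n G := by
  classical
  rw [Pool.Agent.PMNC.card_pm] at h1 h2
  obtain ⟨F', f, hsub, hcard, hf, hcl, hu⟩ := graph_struct G H F hG hGH h1 h2
  let H' : SimpleGraph (Fin n) :=
    { Adj := fun u v => H.Adj u v ∧ (u ∈ F' ∨ v ∈ F' → v = f u)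
      symm := ⟨fun u v h => ⟨h.1.symm, fun h3 => by
        have := h.2 h3.symm
        rw [this, hf.1]⟩⟩
      loopless := ⟨fun u h => H.irrefl h.1⟩ }
  have hf' : IsPM H' f := ⟨hf.1, fun v => ⟨hf.2 v, fun _ => rfl⟩⟩
  have hu' : ∀ g, IsPM H' g → g = f := fun g hg =>
    hu g ⟨hg.1, fun v => (hg.2 v).1⟩ fun x hx => (hg.2 x).2 (Or.inl hx)
  have hd := adx_det_unique H' hf' hu'
  refine ⟨hG, 1, le_refl _, by simp, ?_⟩
  have h3 : (Pool.Agent.PMNC.adx H' (Pool.Agent.PMNC.wE 1) (RatFunc.X : RatFunc ℚ)).rank = n := by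
    have := Matrix.rank_of_isUnit (Pool.Agent.PMNC.adx H' (Pool.Agent.PMNC.wE 1) (RatFunc.X : RatFunc ℚ))
      ((Matrix.isUnit_iff_isUnit_det _).2 (isUnit_iff_ne_zero.2 hd))
    rwa [Fintype.card_fin] at this
  have h4 := Pool.Agent.PMNC.rank_near (Pool.Agent.PMNC.adx H' (Pool.Agent.PMNC.wE 1) (RatFunc.X : RatFunc ℚ))
    (Pool.Agent.PMNC.adx G (Pool.Agent.PMNC.wE 1) (RatFunc.X : RatFunc ℚ)) F' (fun u hu v hv => by
      unfold Pool.Agent.PMNC.adx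
      rw [Matrix.of_apply, Matrix.of_apply]
      have e : H'.Adj u v ↔ G.Adj u v := by
        rw [hGH u (fun h => hu (hsub h)) v (fun h => hv (hsub h))]
        exact ⟨fun h => h.1, fun h => ⟨h, fun h' => absurd h' (by tauto)⟩⟩
      by_cases h : H'.Adj u v
      · rw [if_pos h, if_pos (e.1 h)]
      · rw [if_neg h, if_neg (fun h5 => h (e.2 h5))])
  have h5 : 2 ≤ Nat.log 2 n := by
    have : Nat.log 2 4 ≤ Nat.log 2 n := Nat.log_mono_right hn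
    have e : Nat.log 2 4 = 2 := by
      rw [show 4 = 2 ^ 2 from rfl, Nat.log_pow (by norm_num)]
    omega
  have h6 := arith (c := c) h5 hF
  omega

end QFew
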