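import Pool.Agent.Lib.MP_0087d5_lc.QF.Fake

/-!
# Few perfect matchings: packing permutations

JOB Birk: `birk`. JOB Pack1: `pair_bound`, `disj_bound`, `log_bound`. JOB Pack2: `packing`.

`birk`: induction on `L`. For `L = 0`: `B = 0`. For `L + 1`: Hall's theorem (`Finset.all_card_le_biUnion_card_iff_exists_injective`) for the sets `{j | B i j ≠ 0}`: for a set `S` of rows,
`(L + 1) |S| = ∑ i ∈ S, ∑ j ∈ N(S), B i j ≤ ∑ j ∈ N(S), cs B j = (L + 1) |N(S)|`. An injective map `V → V` is a permutation `σ` with `B i (σ i) ≥ 1`; subtract it.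

`log_bound`: `(4/3) ^ t ≤ 2 ^ k` implies `t ≤ 3 k`: otherwise `t ≥ 3 k + 1`, `4 ^ t = 4 ^ (t - 3k) 64 ^ k`, `64 > 2 * 27`: `4 ^ t > 3 ^ t * 2 ^ k` (`4 ^ (t - 3 k) > 3 ^ (t - 3 k)` and `64 ^ k ≥ (2 * 27) ^ k`).
`pair_bound`: the permutations `π` with `π i ∈ {i, σ i, τ i}` belong to `sup E`; `union_bound`, `log_bound`.
`disj_bound`: for a subset `S` of `T` the product of the (pairwise disjoint, hence commuting) permutations in `S` belongs to `sup E` (at each point at most one factor moves it), and different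
subsets give different products: `2 ^ |T| ≤ 2 ^ k`. (Simpler: define the permutation directly: `x ↦ c x` for the `c ∈ S` with `c x ≠ x` if there is one, `x` otherwise; or use `Finset.noncommProd`, or induction on
`T`: `|sup E ∩ {perms supported on the union of the supports of T}| ≥ 2 ^ |T|`: multiply by the new `c`.)

`packing`. For every `a` choose a point `x` with `π a x ≠ x` and let `c a = (π a).cycleOf x`: it belongs to `sup E` (`c a y = π a y` or `y`), is not `1`, moves only points moved by `π a` (so the load is at most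
`L`), and if `c a y ≠ y` then the support of `c a` is the set of all `(c a)^i y` (it is a cycle, `Equiv.Perm.isCycle_cycleOf`). Let `B i j = #{a | c a i = j, j ≠ i} + (if i = j then L - load i else 0)`. All row and column sums are `L`.
`birk` gives `σ a`, `a < L`; `σ a ∈ sup E`. Let `b` be the set of the points `v` such that `c a v ≠ v`, `c a' v ≠ v`, `c a v ≠ c a' v` for some `a, a'`. Such a `v` has `B v (c a v) ≥ 1` and `B v (c a' v) ≥ 1`,
so there are `e ≠ e'` in `Fin L` with `σ e v = c a v`, `σ e' v = c a' v`: `v` is counted in `pair_bound` for `σ e, σ e'`. So `|b| ≤ #{(e, e')| e < e'} * 3 k ≤ L ^ 2 * 3 k / 2`, precisely `2 * |b| ≤ L ^ 2 * (3 k)`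
(`v` is counted for `(e, e')` and for `(e', e)`).
The indices `a` such that the support of `c a` meets `b`: at most `∑ v ∈ b, load v ≤ |b| L`.
The other indices: if `a` is one of them and `c a v ≠ v`, `c a' v ≠ v`, then `c a = c a'`: `c a v = c a' v` as `v ∉ b`, this point is again moved by both, and so on; the supports are the orbits of `v`
(so all the points of the support of `c a'` are reached from `v` in the support of `c a`). So the set `T` of the permutations `c a` for these `a` is pairwise disjoint, `|T| ≤ k` by `disj_bound`, and each is `c a` for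
at most `L` indices `a` (load of a point moved by it). Total: `s ≤ |b| L + k L`, `2 s ≤ 3 k L ^ 3 + 2 k L ≤ 5 k L ^ 3` if `L ≥ 1`; and if `L = 0` then `s = 0`.
-/

set_option autoImplicit false

namespace QFew

open Finset

variable {V : Type*} [Fintype V] [DecidableEq V]

theorem birk (L : ℕ) : ∀ (B : Matrix V V ℕ), (∀ i, rs B i = L) → (∀ j, cs B j = L) →
    ∃ σ : Fin L → Equiv.Perm V, ∀ i j, B i j = (univ.filter (fun a => σ a i = j)).card := by
  induction L with
  | zero =>
    intro B hr _
    refine ⟨fun a => a.elim0, fun i j => ?_⟩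
    have h0 : B i j = 0 := by
      have h := hr i
      unfold rs at h
      exact (Finset.sum_eq_zero_iff.mp h) j (mem_univ j)
    rw [h0]
    symm
    rw [Finset.card_eq_zero]
    ext a
    exact a.elim0
  | succ L ih =>
    intro B hr hc
    have hall : ∀ S : Finset V, S.card ≤ (S.biUnion (fun i => univ.filter (fun j => B i j ≠ 0))).card := by
      intro S
      set N := S.biUnion (fun i => univ.filter (fun j => B i j ≠ 0)) with hN
      have e1 : ∑ i ∈ S, rs B i = S.card * (L + 1) := by
        rw [Finset.sum_congr rfl (fun i _ => hr i), Finset.sum_const, smul_eq_mul]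
      have e2 : ∑ i ∈ S, rs B i = ∑ i ∈ S, ∑ j ∈ N, B i j := by
        refine Finset.sum_congr rfl (fun i hi => ?_)
        unfold rs
        symm
        refine Finset.sum_subset (Finset.subset_univ N) (fun j _ hj => ?_)
        by_contra h
        apply hj
        rw [hN, Finset.mem_biUnion]
        exact ⟨i, hi, by rw [Finset.mem_filter]; exact ⟨mem_univ j, h⟩⟩
      have e3 : ∑ i ∈ S, ∑ j ∈ N, B i j ≤ ∑ j ∈ N, cs B j := by
        rw [Finset.sum_comm]
        refine Finset.sum_le_sum (fun j _ => ?_)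
        unfold cs
        exact Finset.sum_le_sum_of_subset (Finset.subset_univ S)
      have e4 : ∑ j ∈ N, cs B j = N.card * (L + 1) := by
        rw [Finset.sum_congr rfl (fun i _ => hc i), Finset.sum_const, smul_eq_mul]
      have e5 : S.card * (L + 1) ≤ N.card * (L + 1) := by
        rw [← e1, e2, ← e4]; exact e3
      exact Nat.le_of_mul_le_mul_right e5 (Nat.succ_pos L)
    obtain ⟨f, hf, hf'⟩ := (Finset.all_card_le_biUnion_card_iff_exists_injective
      (fun i => univ.filter (fun j => B i j ≠ 0))).mp hall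
    have hfb : Function.Bijective f := Finite.injective_iff_bijective.mp hf
    let s0 : Equiv.Perm V := Equiv.ofBijective f hfb
    have hs0 : ∀ i, s0 i = f i := fun i => rfl
    have hpos : ∀ i, 1 ≤ B i (s0 i) := by
      intro i
      have h := hf' i
      rw [Finset.mem_filter] at h
      rw [hs0]
      omega
    let B' : Matrix V V ℕ := fun i j => B i j - (if s0 i = j then 1 else 0)
    have hB : ∀ i j, B i j = B' i j + (if s0 i = j then 1 else 0) := by
      intro i j
      change B i j = (B i j - (if s0 i = j then 1 else 0)) + (if s0 i = j then 1 else 0)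
      by_cases h : s0 i = j
      · have := hpos i
        rw [h] at this
        rw [if_pos h]
        omega
      · rw [if_neg h]
        omega
    have hr' : ∀ i, rs B' i = L := by
      intro i
      have h : rs B i = rs B' i + 1 := by
        unfold rs
        rw [Finset.sum_congr rfl (fun j _ => hB i j), Finset.sum_add_distrib]
        congr 1
        rw [Finset.sum_ite_eq, if_pos (mem_univ _)]
      rw [hr i] at h
      omega
    have hc' : ∀ j, cs B' j = L := by
      intro j
      have h : cs B j = cs B' j + 1 := by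
        unfold cs
        rw [Finset.sum_congr rfl (fun i _ => hB i j), Finset.sum_add_distrib]
        congr 1
        have e : ∀ i ∈ (univ : Finset V), (if s0 i = j then 1 else 0) = (if s0.symm j = i then 1 else 0) := by
          intro i _
          by_cases hh : s0 i = j
          · rw [if_pos hh, if_pos (by rw [← hh, Equiv.symm_apply_apply])]
          · rw [if_neg hh, if_neg (by intro h2; apply hh; rw [← h2, Equiv.apply_symm_apply])]
        rw [Finset.sum_congr rfl e, Finset.sum_ite_eq, if_pos (mem_univ _)]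
      rw [hc j] at h
      omega
    obtain ⟨σ, hσ⟩ := ih B' hr' hc'
    refine ⟨Fin.cons s0 σ, fun i j => ?_⟩
    rw [hB i j, hσ i j, Finset.card_filter, Finset.card_filter, Fin.sum_univ_succ, Fin.cons_zero, add_comm]
    congr 1

open Classical in
/-- the permutations supported by the relation `E` -/
noncomputable def sup (E : V → V → Prop) : Finset (Equiv.Perm V) := univ.filter (fun π => ∀ i, E i (π i))

theorem mem_sup {E : V → V → Prop} {π : Equiv.Perm V} : π ∈ sup E ↔ ∀ i, E i (π i) := by
  simp [sup]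

theorem log_bound {t k : ℕ} (h : 4 ^ t ≤ 3 ^ t * 2 ^ k) : t ≤ 3 * k := by
  by_contra hc
  obtain ⟨m, rfl⟩ : ∃ m, t = 3 * k + (m + 1) := ⟨t - 3 * k - 1, by omega⟩
  have e1 : (4 : ℕ) ^ (3 * k + (m + 1)) = 64 ^ k * 4 ^ (m + 1) := by
    rw [pow_add, pow_mul]; norm_num
  have e2 : (3 : ℕ) ^ (3 * k + (m + 1)) * 2 ^ k = 54 ^ k * 3 ^ (m + 1) := by
    have h54 : (54 : ℕ) ^ k = 27 ^ k * 2 ^ k := by rw [← mul_pow]; norm_num
    rw [pow_add, pow_mul, h54]; norm_num; ring
  rw [e1, e2] at h
  have h1 : (54 : ℕ) ^ k ≤ 64 ^ k := Nat.pow_le_pow_left (by norm_num) k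
  have h2 : (3 : ℕ) ^ (m + 1) < 4 ^ (m + 1) := Nat.pow_lt_pow_left (by norm_num) (by omega)
  have h3 : (54 : ℕ) ^ k * 3 ^ (m + 1) < 64 ^ k * 4 ^ (m + 1) := by
    calc (54 : ℕ) ^ k * 3 ^ (m + 1) ≤ 64 ^ k * 3 ^ (m + 1) := Nat.mul_le_mul_right _ h1
      _ < 64 ^ k * 4 ^ (m + 1) := Nat.mul_lt_mul_of_pos_left h2 (by positivity)
  omega

theorem pair_bound {E : V → V → Prop} (hE : ∀ i, E i i) {k : ℕ} (hN : (sup E).card ≤ 2 ^ k)
    {σ τ : Equiv.Perm V} (h1 : σ ∈ sup E) (h2 : τ ∈ sup E) :
    (univ.filter (fun i => σ i ≠ i ∧ τ i ≠ i ∧ σ i ≠ τ i)).card ≤ 3 * k := by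
  apply log_bound
  refine (union_bound σ τ).trans ?_
  apply Nat.mul_le_mul_left
  refine le_trans (Finset.card_le_card ?_) hN
  intro π hπ
  rw [mem_sup]
  intro i
  have h3 := (Finset.mem_filter.1 hπ).2 i
  rcases h3 with h3 | h3 | h3
  · rw [h3]; exact hE i
  · rw [h3]; exact mem_sup.1 h1 i
  · rw [h3]; exact mem_sup.1 h2 i

open Classical in
private theorem pack1_perm (S : Finset (Equiv.Perm V))
    (h2 : ∀ c ∈ S, ∀ c' ∈ S, c ≠ c' → ∀ x, c x = x ∨ c' x = x) :
    ∃ p : Equiv.Perm V, (∀ c ∈ S, ∀ x, c x ≠ x → p x = c x) ∧ (∀ x, (∀ c ∈ S, c x = x) → p x = x) := by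
  have hex : ∀ x : V, ∃ y : V, (∀ c ∈ S, c x ≠ x → y = c x) ∧ ((∀ c ∈ S, c x = x) → y = x) := by
    intro x
    by_cases h : ∃ c ∈ S, c x ≠ x
    · obtain ⟨c, hc, hcx⟩ := h
      refine ⟨c x, ?_, fun hh => absurd (hh c hc) hcx⟩
      intro d hd hdx
      by_contra hne
      have hcd : c ≠ d := fun e => hne (by rw [e])
      rcases h2 c hc d hd hcd x with h | h
      · exact hcx h
      · exact hdx h
    · refine ⟨x, ?_, fun _ => rfl⟩
      intro c hc hcx
      exact absurd ⟨c, hc, hcx⟩ h
  choose f hf1 hf2 using hex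
  have hinj : Function.Injective f := by
    intro x y hxy
    by_cases hx : ∃ c ∈ S, c x ≠ x
    · obtain ⟨c, hc, hcx⟩ := hx
      have e1 : f x = c x := hf1 x c hc hcx
      have hcc : c (c x) ≠ c x := fun e => hcx (c.injective e)
      by_cases hy : ∃ d ∈ S, d y ≠ y
      · obtain ⟨d, hd, hdy⟩ := hy
        have e2 : f y = d y := hf1 y d hd hdy
        have hdd : d (d y) ≠ d y := fun e => hdy (d.injective e)
        have e3 : c x = d y := by rw [← e1, ← e2, hxy]
        have hcd : c = d := by
          by_contra hne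
          rcases h2 c hc d hd hne (c x) with h | h
          · exact hcc h
          · rw [e3] at h; exact hdd h
        subst hcd
        exact c.injective e3
      · have hy' : ∀ d ∈ S, d y = y := by
          intro d hd
          by_contra hne
          exact hy ⟨d, hd, hne⟩
        have e2 : f y = y := hf2 y hy'
        have e3 : c x = y := by rw [← e1, ← e2, hxy]
        rw [e3] at hcc
        exact absurd (hy' c hc) hcc
    · have hx' : ∀ d ∈ S, d x = x := by
        intro d hd
        by_contra hne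
        exact hx ⟨d, hd, hne⟩
      have e1 : f x = x := hf2 x hx'
      by_cases hy : ∃ d ∈ S, d y ≠ y
      · obtain ⟨d, hd, hdy⟩ := hy
        have e2 : f y = d y := hf1 y d hd hdy
        have hdd : d (d y) ≠ d y := fun e => hdy (d.injective e)
        have e3 : x = d y := by rw [← e2, ← hxy, e1]
        rw [← e3] at hdd
        exact absurd (hx' d hd) hdd
      · have hy' : ∀ d ∈ S, d y = y := by
          intro d hd
          by_contra hne
          exact hy ⟨d, hd, hne⟩
        have e2 : f y = y := hf2 y hy'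
        rw [← e1, hxy, e2]
  refine ⟨Equiv.ofBijective f (Finite.injective_iff_bijective.1 hinj), ?_, ?_⟩
  · intro c hc x hx
    exact hf1 x c hc hx
  · intro x hx
    exact hf2 x hx

theorem disj_bound {E : V → V → Prop} (hE : ∀ i, E i i) {k : ℕ} (hN : (sup E).card ≤ 2 ^ k)
    (T : Finset (Equiv.Perm V)) (h1 : ∀ c ∈ T, c ∈ sup E ∧ c ≠ 1)
    (h2 : ∀ c ∈ T, ∀ c' ∈ T, c ≠ c' → ∀ x, c x = x ∨ c' x = x) : T.card ≤ k := by
  classical
  have hex : ∀ S : Finset (Equiv.Perm V), S ∈ T.powerset → ∃ p : Equiv.Perm V,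
      (∀ c ∈ S, ∀ x, c x ≠ x → p x = c x) ∧ (∀ x, (∀ c ∈ S, c x = x) → p x = x) := by
    intro S hS
    have hST := Finset.mem_powerset.1 hS
    exact pack1_perm S (fun c hc c' hc' => h2 c (hST hc) c' (hST hc'))
  choose! p hp1 hp2 using hex
  have hmem : ∀ S ∈ T.powerset, p S ∈ sup E := by
    intro S hS
    have hST := Finset.mem_powerset.1 hS
    rw [mem_sup]
    intro x
    by_cases hx : ∃ c ∈ S, c x ≠ x
    · obtain ⟨c, hc, hcx⟩ := hx
      rw [hp1 S hS c hc x hcx]
      exact mem_sup.1 (h1 c (hST hc)).1 x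
    · have hx' : ∀ d ∈ S, d x = x := by
        intro d hd
        by_contra hne
        exact hx ⟨d, hd, hne⟩
      rw [hp2 S hS x hx']
      exact hE x
  have hsub : ∀ S ∈ T.powerset, ∀ S' ∈ T.powerset, p S = p S' → S ⊆ S' := by
    intro S hS S' hS' he c hc
    by_contra hcn
    have hST := Finset.mem_powerset.1 hS
    have hST' := Finset.mem_powerset.1 hS'
    have hc1 := (h1 c (hST hc)).2
    obtain ⟨x, hx⟩ : ∃ x, c x ≠ x := by
      by_contra hno
      apply hc1
      ext x
      by_contra hne
      exact hno ⟨x, hne⟩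
    have e1 := hp1 S hS c hc x hx
    have hx' : ∀ d ∈ S', d x = x := by
      intro d hd
      have hne : c ≠ d := fun e => hcn (by rw [e]; exact hd)
      rcases h2 c (hST hc) d (hST' hd) hne x with h | h
      · exact absurd h hx
      · exact h
    have e2 := hp2 S' hS' x hx'
    rw [he, e2] at e1
    exact hx e1.symm
  have hcard : T.powerset.card ≤ (sup E).card := by
    apply Finset.card_le_card_of_injOn p
    · intro S hS
      exact hmem S hS
    · intro S hS S' hS' he
      exact Finset.Subset.antisymm (hsub S hS S' hS' he) (hsub S' hS' S hS he.symm)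
  rw [Finset.card_powerset] at hcard
  exact (Nat.pow_le_pow_iff_right (by norm_num)).1 (hcard.trans hN)

private theorem pack2_cycle (f : Equiv.Perm V) (hf : f ≠ 1) :
    ∃ c : Equiv.Perm V, c.IsCycle ∧ ∀ y, c y = f y ∨ c y = y := by
  classical
  obtain ⟨x, hx⟩ : ∃ x, f x ≠ x := by
    by_contra hc
    push Not at hc
    exact hf (Equiv.ext hc)
  refine ⟨f.cycleOf x, Equiv.Perm.isCycle_cycleOf f hx, fun y => ?_⟩
  rw [Equiv.Perm.cycleOf_apply]
  split_ifs
  · exact Or.inl rfl
  · exact Or.inr rfl

private theorem pack2_eq {c c' : Equiv.Perm V} (hc : c.IsCycle) (hc' : c'.IsCycle) {x : V}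
    (hx : c x ≠ x) (hx' : c' x ≠ x) (h : ∀ y, c y ≠ y → c' y ≠ y → c y = c' y) : c = c' := by
  have hn : ∀ n : ℕ, (c ^ n) x = (c' ^ n) x ∧ c ((c ^ n) x) ≠ (c ^ n) x ∧
      c' ((c ^ n) x) ≠ (c ^ n) x := by
    intro n
    induction n with
    | zero => exact ⟨by rw [pow_zero, pow_zero], by rw [pow_zero]; exact hx,
        by rw [pow_zero]; exact hx'⟩
    | succ n ih =>
      obtain ⟨h1, h2, h3⟩ := ih
      have h4 := h _ h2 h3
      have h5 : (c ^ (n + 1)) x = c ((c ^ n) x) := by
        rw [pow_succ', Equiv.Perm.mul_apply]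
      have h6 : (c' ^ (n + 1)) x = c' ((c ^ n) x) := by
        rw [pow_succ', Equiv.Perm.mul_apply, h1]
      rw [h5, h6]
      refine ⟨h4, fun hh => h2 (c.injective hh), fun hh => ?_⟩
      rw [h4] at hh
      exact h3 (c'.injective hh)
  refine Equiv.ext fun y => ?_
  by_cases hy : c y = y
  · by_cases hy' : c' y = y
    · rw [hy, hy']
    · obtain ⟨n, rfl⟩ := hc'.exists_pow_eq hx' hy'
      rw [← (hn n).1] at hy ⊢
      exact absurd hy (hn n).2.1
  · obtain ⟨n, rfl⟩ := hc.exists_pow_eq hx hy
    exact h _ (hn n).2.1 (hn n).2.2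

private theorem pack2_row {s : ℕ} (c : Fin s → Equiv.Perm V) (i : V) :
    ∑ j, (univ.filter (fun a => c a i = j ∧ j ≠ i)).card = (univ.filter (fun a => c a i ≠ i)).card := by
  simp_rw [card_filter]
  rw [sum_comm]
  refine sum_congr rfl fun a _ => ?_
  rw [sum_eq_single (c a i)]
  · simp
  · intro j _ hj
    rw [if_neg]
    exact fun hh => hj hh.1.symm
  · intro hh
    exact absurd (mem_univ _) hh

private theorem pack2_col {s : ℕ} (c : Fin s → Equiv.Perm V) (j : V) :
    ∑ i, (univ.filter (fun a => c a i = j ∧ j ≠ i)).card = (univ.filter (fun a => c a j ≠ j)).card := by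
  simp_rw [card_filter]
  rw [sum_comm]
  refine sum_congr rfl fun a _ => ?_
  rw [sum_eq_single ((c a).symm j)]
  · by_cases hh : c a j = j
    · have h1 : (c a).symm j = j := by
        rw [Equiv.symm_apply_eq]
        exact hh.symm
      rw [h1, if_neg, if_neg]
      · exact fun h2 => h2 hh
      · exact fun h2 => h2.2 rfl
    · rw [if_pos, if_pos hh]
      refine ⟨Equiv.apply_symm_apply _ _, fun h2 => hh ?_⟩
      have h3 := congrArg (c a) h2
      rwa [Equiv.apply_symm_apply] at h3
  · intro i _ hi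
    rw [if_neg]
    intro hh
    apply hi
    rw [Equiv.eq_symm_apply]
    exact hh.1
  · intro hh
    exact absurd (mem_univ _) hh

theorem packing {E : V → V → Prop} (hE : ∀ i, E i i) {k L s : ℕ} (hN : (sup E).card ≤ 2 ^ k)
    (π : Fin s → Equiv.Perm V) (h1 : ∀ a, π a ∈ sup E ∧ π a ≠ 1)
    (hL : ∀ v, (univ.filter (fun a => π a v ≠ v)).card ≤ L) : s ≤ 3 * k * L ^ 3 := by
  choose c hcyc hcv using fun a => pack2_cycle (π a) (h1 a).2
  have hmv : ∀ a v, c a v ≠ v → π a v ≠ v ∧ c a v = π a v := by
    intro a v h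
    rcases hcv a v with h2 | h2
    · exact ⟨fun h3 => h (h2.trans h3), h2⟩
    · exact absurd h2 h
  have hcE : ∀ a v, E v (c a v) := by
    intro a v
    rcases hcv a v with h2 | h2
    · rw [h2]
      exact mem_sup.1 (h1 a).1 v
    · rw [h2]
      exact hE v
  have hload : ∀ v, (univ.filter (fun a => c a v ≠ v)).card ≤ L := by
    intro v
    refine (card_le_card fun a ha => ?_).trans (hL v)
    rw [mem_filter] at ha ⊢
    exact ⟨mem_univ _, (hmv a v ha.2).1⟩
  let B : Matrix V V ℕ := fun i j => (univ.filter (fun a => c a i = j ∧ j ≠ i)).card +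
    (if i = j then L - (univ.filter (fun a => c a i ≠ i)).card else 0)
  have hrs : ∀ i, rs B i = L := by
    intro i
    have h2 : rs B i = ∑ j, ((univ.filter (fun a => c a i = j ∧ j ≠ i)).card +
      (if i = j then L - (univ.filter (fun a => c a i ≠ i)).card else 0)) := rfl
    rw [h2, sum_add_distrib, pack2_row, sum_ite_eq, if_pos (mem_univ _)]
    have := hload i
    omega
  have hcs : ∀ j, cs B j = L := by
    intro j
    have h2 : cs B j = ∑ i, ((univ.filter (fun a => c a i = j ∧ j ≠ i)).card +
      (if i = j then L - (univ.filter (fun a => c a i ≠ i)).card else 0)) := rfl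
    rw [h2, sum_add_distrib, pack2_col, sum_ite_eq', if_pos (mem_univ _)]
    have := hload j
    omega
  obtain ⟨σ, hσ⟩ := birk L B hrs hcs
  have hσ1 : ∀ e i, σ e i ≠ i → ∃ a, c a i = σ e i := by
    intro e i h
    have h2 : 0 < B i (σ e i) := by
      rw [hσ]
      exact card_pos.2 ⟨e, by rw [mem_filter]; exact ⟨mem_univ _, rfl⟩⟩
    have h3 : B i (σ e i) = (univ.filter (fun a => c a i = σ e i ∧ σ e i ≠ i)).card +
      (if i = σ e i then L - (univ.filter (fun a => c a i ≠ i)).card else 0) := rfl
    rw [h3, if_neg (fun hh => h hh.symm), add_zero] at h2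
    obtain ⟨a, ha⟩ := card_pos.1 h2
    exact ⟨a, (mem_filter.1 ha).2.1⟩
  have hσE : ∀ e, σ e ∈ sup E := by
    intro e
    rw [mem_sup]
    intro i
    by_cases h : σ e i = i
    · rw [h]
      exact hE i
    · obtain ⟨a, ha⟩ := hσ1 e i h
      rw [← ha]
      exact hcE a i
  have hσ2 : ∀ a v, c a v ≠ v → ∃ e, σ e v = c a v := by
    intro a v h
    have h2 : 0 < B v (c a v) := by
      have h3 : 0 < (univ.filter (fun a' => c a' v = c a v ∧ c a v ≠ v)).card :=
        card_pos.2 ⟨a, by rw [mem_filter]; exact ⟨mem_univ _, rfl, h⟩⟩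
      exact Nat.lt_of_lt_of_le h3 (Nat.le_add_right _ _)
    rw [hσ] at h2
    obtain ⟨e, he⟩ := card_pos.1 h2
    exact ⟨e, (mem_filter.1 he).2⟩
  let b : Finset V := univ.filter (fun v => ∃ a a', c a v ≠ v ∧ c a' v ≠ v ∧ c a v ≠ c a' v)
  have hb : b.card ≤ (L * L - L) * (3 * k) := by
    have h2 : b ⊆ (univ : Finset (Fin L)).offDiag.biUnion (fun p =>
        univ.filter (fun i => σ p.1 i ≠ i ∧ σ p.2 i ≠ i ∧ σ p.1 i ≠ σ p.2 i)) := by
      intro v hv
      obtain ⟨_, a, a', h3, h4, h5⟩ := mem_filter.1 hv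
      obtain ⟨e, he⟩ := hσ2 a v h3
      obtain ⟨e', he'⟩ := hσ2 a' v h4
      rw [mem_biUnion]
      refine ⟨(e, e'), ?_, ?_⟩
      · rw [mem_offDiag]
        refine ⟨mem_univ _, mem_univ _, fun hh => h5 ?_⟩
        have hh' : e = e' := hh
        rw [← he, ← he', hh']
      · rw [mem_filter]
        refine ⟨mem_univ _, ?_, ?_, ?_⟩
        · show σ e v ≠ v
          rw [he]; exact h3
        · show σ e' v ≠ v
          rw [he']; exact h4
        · show σ e v ≠ σ e' v
          rw [he, he']; exact h5
    refine (card_le_card h2).trans ?_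
    refine (card_biUnion_le_card_mul _ _ (3 * k) fun p _ => ?_).trans ?_
    · exact pair_bound hE hN (hσE p.1) (hσE p.2)
    · rw [offDiag_card, card_univ, Fintype.card_fin]
  let G : Finset (Fin s) := univ.filter (fun a => ∀ v ∈ b, c a v = v)
  let G' : Finset (Fin s) := univ.filter (fun a => ¬ ∀ v ∈ b, c a v = v)
  have hGG : G.card + G'.card = s := by
    have h2 := card_filter_add_card_filter_not (s := (univ : Finset (Fin s)))
      (fun a => ∀ v ∈ b, c a v = v)
    rw [card_univ, Fintype.card_fin] at h2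
    exact h2
  have hG' : G'.card ≤ b.card * L := by
    have h2 : G' ⊆ b.biUnion (fun v => univ.filter (fun a => c a v ≠ v)) := by
      intro a ha
      have h3 := (mem_filter.1 ha).2
      push Not at h3
      obtain ⟨v, hv, h4⟩ := h3
      rw [mem_biUnion]
      exact ⟨v, hv, by rw [mem_filter]; exact ⟨mem_univ _, h4⟩⟩
    exact (card_le_card h2).trans (card_biUnion_le_card_mul _ _ L fun v _ => hload v)
  have hG : G.card ≤ L * k := by
    have hT : (G.image c).card ≤ k := by
      refine disj_bound hE hN (G.image c) ?_ ?_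
      · intro t ht
        obtain ⟨a, _, rfl⟩ := mem_image.1 ht
        refine ⟨?_, (hcyc a).ne_one⟩
        rw [mem_sup]
        exact hcE a
      · intro t ht t' ht' hne x
        obtain ⟨a, ha, rfl⟩ := mem_image.1 ht
        obtain ⟨a', ha', rfl⟩ := mem_image.1 ht'
        by_contra hc
        push Not at hc
        refine hne (pack2_eq (hcyc a) (hcyc a') hc.1 hc.2 fun y hy hy' => ?_)
        by_contra hne2
        have hyb : y ∈ b := by
          rw [mem_filter]
          exact ⟨mem_univ _, a, a', hy, hy', hne2⟩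
        exact hy ((mem_filter.1 ha).2 y hyb)
    have h2 : G.card ≤ L * (G.image c).card := by
      refine card_le_mul_card_image G L fun t ht => ?_
      obtain ⟨a, _, rfl⟩ := mem_image.1 ht
      obtain ⟨v, hv⟩ : ∃ v, c a v ≠ v := by
        by_contra hc
        push Not at hc
        exact (hcyc a).ne_one (Equiv.ext hc)
      refine (card_le_card fun a' ha' => ?_).trans (hload v)
      rw [mem_filter] at ha' ⊢
      refine ⟨mem_univ _, ?_⟩
      rw [ha'.2]
      exact hv
    exact h2.trans (Nat.mul_le_mul_left _ hT)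
  have h3 : G'.card ≤ (L * L - L) * (3 * k) * L := hG'.trans (Nat.mul_le_mul_right _ hb)
  rcases Nat.eq_zero_or_pos L with h0 | h0
  · subst h0
    rw [Nat.zero_mul] at hG
    rw [Nat.mul_zero] at h3
    omega
  · obtain ⟨n, rfl⟩ : ∃ n, L = n + 1 := ⟨L - 1, by omega⟩
    have h4 : (n + 1) * (n + 1) - (n + 1) = (n + 1) * n := by
      have : (n + 1) * (n + 1) = (n + 1) * n + (n + 1) := by ring
      omega
    rw [h4] at h3
    have h5 : (n + 1) * k + (n + 1) * n * (3 * k) * (n + 1) ≤ 3 * k * (n + 1) ^ 3 := by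
      have h6 : 3 * k * (n + 1) ^ 3 = (n + 1) * k + (n + 1) * n * (3 * k) * (n + 1) +
          (3 * k * n ^ 2 + 5 * k * n + 2 * k) := by ring
      omega
    omega

end QFew
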