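import Mathlib

/-!
# Few perfect matchings: permanents of matrices of natural numbers

JOB PerA.

`Matrix.permanent A = ∑ σ, ∏ i, A (σ i) i` (row `σ i`, column `i`). Everything takes place in one type `V`: a row and a column are deleted by giving them the
single entry `1` in common.

Proofs. For a row `r` and a column `j` let `M r j = ∑ σ with σ j = r, ∏ i ∈ univ.erase j, A (σ i) i`. Then `A.permanent = ∑ r, A r j * M r j` for every `j` (group the
permutations by `σ j`), and `A.permanent = ∑ j, A r j * M r j` for every `r` (group by `σ⁻¹ r`). `M r j` does not depend on the entries of `A` in the row `r` and in the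
column `j`.
* `per_dea`: expand along the row `r`; `(dea A r j).permanent = M r j`.
* `per_rem_sum`: if `A i w ≥ 1` then `(rem A i w).permanent + M i w = A.permanent`; multiply by `A i w` and sum over `i`.
* `per_mrg`: `A.permanent = M r j + M r k`. Expand `mrg A r j k` along the row `r`: its permanent is the sum over the `σ` with `σ j = r` of
  `∏ i ∈ univ.erase j, (mrg A r j k) (σ i) i`, and the factor `i = k` is `A (σ k) k + A (σ k) j`. The first part is `M r j`. The second part is `M r k`: replace `σ` by `σ * swap j k`.
* `per_mono`, `per_pos`: direct.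
-/

set_option autoImplicit false

namespace QFew

open Finset

variable {V : Type*} [Fintype V] [DecidableEq V]

/-- row sum -/
def rs (A : Matrix V V ℕ) (i : V) : ℕ := ∑ j, A i j

/-- column sum -/
def cs (A : Matrix V V ℕ) (j : V) : ℕ := ∑ i, A i j

/-- the row `r` and the column `j` are matched with each other -/
def dea (A : Matrix V V ℕ) (r j : V) : Matrix V V ℕ :=
  fun x y => if x = r then (if y = j then 1 else 0) else if y = j then 0 else A x y

/-- the row `r` is matched with the column `j` and the column `j` (without the entry in the row `r`) is added to the column `k` -/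
def mrg (A : Matrix V V ℕ) (r j k : V) : Matrix V V ℕ :=
  fun x y => if x = r then (if y = j then 1 else 0) else if y = j then 0 else if y = k then A x k + A x j else A x y

/-- one unit is removed at `(i, j)` -/
def rem (A : Matrix V V ℕ) (i j : V) : Matrix V V ℕ :=
  fun x y => if x = i ∧ y = j then A i j - 1 else A x y

/-- the part of the permanent with `σ j = r` without the entry -/
private def pera_M (A : Matrix V V ℕ) (r j : V) : ℕ :=
  ∑ σ : Equiv.Perm V, if σ j = r then ∏ i ∈ univ.erase j, A (σ i) i else 0

private theorem pera_split (A : Matrix V V ℕ) (σ : Equiv.Perm V) (j : V) :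
    ∏ i, A (σ i) i = A (σ j) j * ∏ i ∈ univ.erase j, A (σ i) i :=
  (Finset.mul_prod_erase univ (fun i => A (σ i) i) (mem_univ j)).symm

private theorem pera_col (A : Matrix V V ℕ) (j : V) :
    A.permanent = ∑ r, A r j * pera_M A r j := by
  unfold Matrix.permanent pera_M
  simp_rw [Finset.mul_sum]
  rw [Finset.sum_comm]
  refine Finset.sum_congr rfl (fun σ _ => ?_)
  rw [pera_split A σ j, Finset.sum_eq_single (σ j)]
  · rw [if_pos rfl]
  · intro b _ hb
    rw [if_neg (fun e => hb e.symm), mul_zero]
  · intro h
    exact absurd (mem_univ _) h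

private theorem pera_dea_M (A : Matrix V V ℕ) (r j : V) :
    (dea A r j).permanent = pera_M A r j := by
  unfold Matrix.permanent pera_M
  refine Finset.sum_congr rfl (fun σ _ => ?_)
  rw [pera_split (dea A r j) σ j]
  by_cases hσ : σ j = r
  · rw [if_pos hσ, hσ]
    have h1 : dea A r j r j = 1 := by
      unfold dea
      rw [if_pos rfl, if_pos rfl]
    rw [h1, one_mul]
    refine Finset.prod_congr rfl (fun i hi => ?_)
    have hij : i ≠ j := Finset.ne_of_mem_erase hi
    have hir : σ i ≠ r := fun e => hij (σ.injective (e.trans hσ.symm))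
    unfold dea
    rw [if_neg hir, if_neg hij]
  · rw [if_neg hσ]
    have h1 : dea A r j (σ j) j = 0 := by
      unfold dea
      rw [if_neg hσ, if_pos rfl]
    rw [h1, zero_mul]

private theorem pera_zero (A : Matrix V V ℕ) (σ : Equiv.Perm V) (r : V)
    (h : A r (σ.symm r) = 0) : ∏ i, A (σ i) i = 0 := by
  refine Finset.prod_eq_zero (mem_univ (σ.symm r)) ?_
  rw [Equiv.apply_symm_apply]
  exact h

theorem per_dea (A : Matrix V V ℕ) {r j : V} (h : ∀ y, y ≠ j → A r y = 0) :
    A.permanent = A r j * (dea A r j).permanent := by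
  rw [pera_dea_M]
  unfold Matrix.permanent pera_M
  rw [Finset.mul_sum]
  refine Finset.sum_congr rfl (fun σ _ => ?_)
  by_cases hσ : σ j = r
  · rw [if_pos hσ, pera_split A σ j, hσ]
  · rw [if_neg hσ, mul_zero]
    refine pera_zero A σ r (h _ ?_)
    intro e
    exact hσ ((Equiv.symm_apply_eq σ).1 e).symm

theorem per_mrg (A : Matrix V V ℕ) {r j k : V} (hjk : j ≠ k)
    (h : ∀ y, A r y = if y = j ∨ y = k then 1 else 0) : (mrg A r j k).permanent = A.permanent := by
  have hkj : k ≠ j := fun e => hjk e.symm
  have hrj : A r j = 1 := by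
    rw [h j, if_pos (Or.inl rfl)]
  have hrk : A r k = 1 := by
    rw [h k, if_pos (Or.inr rfl)]
  have hmem : k ∈ (univ : Finset V).erase j := Finset.mem_erase.2 ⟨hkj, mem_univ k⟩
  have hmem' : j ∈ (univ : Finset V).erase k := Finset.mem_erase.2 ⟨hjk, mem_univ j⟩
  have hsw : ((univ : Finset V).erase k).erase j = (univ.erase j).erase k := Finset.erase_right_comm
  have hL : (mrg A r j k).permanent =
      ∑ σ : Equiv.Perm V, ((if σ j = r then A (σ k) k * ∏ i ∈ (univ.erase j).erase k, A (σ i) i else 0)
        + (if σ j = r then A (σ k) j * ∏ i ∈ (univ.erase j).erase k, A (σ i) i else 0)) := by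
    unfold Matrix.permanent
    refine Finset.sum_congr rfl (fun σ _ => ?_)
    rw [pera_split (mrg A r j k) σ j]
    by_cases hσ : σ j = r
    · rw [if_pos hσ, if_pos hσ, hσ]
      have h1 : mrg A r j k r j = 1 := by
        unfold mrg
        rw [if_pos rfl, if_pos rfl]
      rw [h1, one_mul, ← Finset.mul_prod_erase (univ.erase j) (fun i => mrg A r j k (σ i) i) hmem]
      have hkr : σ k ≠ r := fun e => hkj (σ.injective (e.trans hσ.symm))
      have h2 : mrg A r j k (σ k) k = A (σ k) k + A (σ k) j := by
        unfold mrg
        rw [if_neg hkr, if_neg hkj, if_pos rfl]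
      have h3 : ∏ i ∈ (univ.erase j).erase k, mrg A r j k (σ i) i
          = ∏ i ∈ (univ.erase j).erase k, A (σ i) i := by
        refine Finset.prod_congr rfl (fun i hi => ?_)
        have hik : i ≠ k := Finset.ne_of_mem_erase hi
        have hij : i ≠ j := Finset.ne_of_mem_erase (Finset.mem_of_mem_erase hi)
        have hir : σ i ≠ r := fun e => hij (σ.injective (e.trans hσ.symm))
        unfold mrg
        rw [if_neg hir, if_neg hij, if_neg hik]
      rw [h2, h3, add_mul]
    · rw [if_neg hσ, if_neg hσ]
      have h1 : mrg A r j k (σ j) j = 0 := by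
        unfold mrg
        rw [if_neg hσ, if_pos rfl]
      rw [h1, zero_mul, add_zero]
  have hR : A.permanent =
      ∑ σ : Equiv.Perm V, ((if σ j = r then A (σ k) k * ∏ i ∈ (univ.erase j).erase k, A (σ i) i else 0)
        + (if σ k = r then A (σ j) j * ∏ i ∈ (univ.erase j).erase k, A (σ i) i else 0)) := by
    unfold Matrix.permanent
    refine Finset.sum_congr rfl (fun σ _ => ?_)
    by_cases hσ : σ j = r
    · have hkr : σ k ≠ r := fun e => hkj (σ.injective (e.trans hσ.symm))
      rw [if_pos hσ, if_neg hkr, add_zero, pera_split A σ j, hσ, hrj, one_mul,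
        ← Finset.mul_prod_erase (univ.erase j) (fun i => A (σ i) i) hmem]
    · by_cases hσk : σ k = r
      · rw [if_neg hσ, if_pos hσk, zero_add, pera_split A σ k, hσk, hrk, one_mul,
          ← Finset.mul_prod_erase (univ.erase k) (fun i => A (σ i) i) hmem', hsw]
      · rw [if_neg hσ, if_neg hσk]
        refine pera_zero A σ r ?_
        rw [h]
        refine if_neg ?_
        rintro (e | e)
        · exact hσ ((Equiv.symm_apply_eq σ).1 e).symm
        · exact hσk ((Equiv.symm_apply_eq σ).1 e).symm
  rw [hL, hR, Finset.sum_add_distrib, Finset.sum_add_distrib]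
  refine congrArg₂ (· + ·) rfl ?_
  refine Fintype.sum_equiv (Equiv.mulRight (Equiv.swap j k)) _ _ (fun σ => ?_)
  have e1 : (Equiv.mulRight (Equiv.swap j k) σ) k = σ j := by
    rw [Equiv.coe_mulRight, Equiv.Perm.mul_apply, Equiv.swap_apply_right]
  have e2 : (Equiv.mulRight (Equiv.swap j k) σ) j = σ k := by
    rw [Equiv.coe_mulRight, Equiv.Perm.mul_apply, Equiv.swap_apply_left]
  have e3 : ∏ i ∈ (univ.erase j).erase k, A ((Equiv.mulRight (Equiv.swap j k) σ) i) i
      = ∏ i ∈ (univ.erase j).erase k, A (σ i) i := by
    refine Finset.prod_congr rfl (fun i hi => ?_)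
    have hik : i ≠ k := Finset.ne_of_mem_erase hi
    have hij : i ≠ j := Finset.ne_of_mem_erase (Finset.mem_of_mem_erase hi)
    rw [Equiv.coe_mulRight, Equiv.Perm.mul_apply, Equiv.swap_apply_of_ne_of_ne hij hik]
  rw [e1, e2, e3]

theorem per_rem_sum (A : Matrix V V ℕ) (w : V) :
    ∑ i, A i w * (rem A i w).permanent + A.permanent = cs A w * A.permanent := by
  have key : ∀ i, A i w * (rem A i w).permanent + A i w * pera_M A i w = A i w * A.permanent := by
    intro i
    by_cases h0 : A i w = 0
    · rw [h0, zero_mul, zero_mul, zero_mul, add_zero]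
    · have h1 : (rem A i w).permanent + pera_M A i w = A.permanent := by
        unfold Matrix.permanent pera_M
        rw [← Finset.sum_add_distrib]
        refine Finset.sum_congr rfl (fun σ _ => ?_)
        have h3 : ∏ x ∈ univ.erase w, rem A i w (σ x) x = ∏ x ∈ univ.erase w, A (σ x) x := by
          refine Finset.prod_congr rfl (fun x hx => ?_)
          have hxw : x ≠ w := Finset.ne_of_mem_erase hx
          unfold rem
          rw [if_neg (fun e => hxw e.2)]
        rw [pera_split (rem A i w) σ w, pera_split A σ w, h3]
        by_cases hσ : σ w = i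
        · rw [if_pos hσ, hσ]
          have h4 : rem A i w i w = A i w - 1 := by
            unfold rem
            rw [if_pos ⟨rfl, rfl⟩]
          have h5 : A i w = (A i w - 1) + 1 := by omega
          rw [h4]
          calc (A i w - 1) * ∏ x ∈ univ.erase w, A (σ x) x + ∏ x ∈ univ.erase w, A (σ x) x
              = ((A i w - 1) + 1) * ∏ x ∈ univ.erase w, A (σ x) x := by ring
            _ = A i w * ∏ x ∈ univ.erase w, A (σ x) x := by rw [← h5]
        · rw [if_neg hσ, add_zero]
          have h4 : rem A i w (σ w) w = A (σ w) w := by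
            unfold rem
            rw [if_neg (fun e => hσ e.1)]
          rw [h4]
      rw [← mul_add, h1]
  have hcol := pera_col A w
  unfold cs
  rw [Finset.sum_mul]
  calc ∑ i, A i w * (rem A i w).permanent + A.permanent
      = ∑ i, A i w * (rem A i w).permanent + ∑ i, A i w * pera_M A i w := by rw [← hcol]
    _ = ∑ i, (A i w * (rem A i w).permanent + A i w * pera_M A i w) := (Finset.sum_add_distrib).symm
    _ = ∑ i, A i w * A.permanent := Finset.sum_congr rfl (fun i _ => key i)

theorem per_mono {A B : Matrix V V ℕ} (h : ∀ i j, A i j ≤ B i j) : A.permanent ≤ B.permanent := by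
  unfold Matrix.permanent
  exact Finset.sum_le_sum (fun σ _ => Finset.prod_le_prod' (fun i _ => h _ _))

/-- a matrix with a permutation in its support has positive permanent -/
theorem per_pos {A : Matrix V V ℕ} (σ : Equiv.Perm V) (h : ∀ i, A (σ i) i ≠ 0) : 1 ≤ A.permanent := by
  unfold Matrix.permanent
  have h1 : 1 ≤ ∏ i, A (σ i) i := Nat.one_le_iff_ne_zero.2 (Finset.prod_ne_zero_iff.2 (fun i _ => h i))
  exact h1.trans (Finset.single_le_sum (f := fun τ : Equiv.Perm V => ∏ i, A (τ i) i) (fun _ _ => Nat.zero_le _) (mem_univ σ))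

end QFew
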