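import Pool.Agent.Lib.MP_0087d5_lc.QF.PerA

/-!
# Few perfect matchings: Voorhoeve's inequality

JOB Voor.

A row or column with sum `1` is inactive. `Reg A n`: the active rows and columns have sum `3` and there are `n` active rows. `Alm A n r d`: the same, but the row `r` and the
column `d` have sum `2`.

Proof of `alm_bound` and `reg_strong` by induction on `n`: assume both for `n - 1`. Let `Alm A n r d`. The row `r` has sum 2.
(1) `A r = e_j + e_k` with `j ≠ k` (`A r j = A r k = 1`, other entries 0). `C = mrg A r j k` has the same permanent. In `C` the row `r` and the column `j` have sum 1 (inactive), the column `k` has sum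
`cs A j + cs A k - 2`, the other sums are unchanged.
(1a) `d ≠ j, k`: `cs A j = cs A k = 3` (they are not 1 because of `blk`), so `cs C k = 4`. For `C i k ≥ 1` the matrix `rem C i k` satisfies `Alm _ (n - 1) i d`
(the row `i` has sum 2 now, the column `k` sum 3). `per_rem_sum`: `3 * C.permanent = ∑ i, C i k * (rem C i k).permanent`, so
`3 * 3 ^ (n-1) * C.permanent ≥ 4 * 4 ^ (n-1)`.
(1b) `d = j` or `d = k`: `cs C k = 3`, `Reg C (n - 1)`; there is an entry in the column `k`, so there is an active row and `n - 1 ≥ 1`: `reg_strong`:
`3 * 4 ^ (n-1) ≤ 2 * 3 ^ (n-1) * C.permanent`, and `3/2 ≥ 4/3`.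
(2) `A r j = 2`: `per_dea`: `A.permanent = 2 * (dea A r j).permanent`. Let `C = dea A r j`.
(2a) `j = d`: the column `d` has sum 2, all in the row `r`. `Reg C (n - 1)`. If `n - 1 = 0`: `C.permanent ≥ 1` (`reg_zero`), `3 * 2 ≥ 4`. If `n - 1 ≥ 1`: `reg_strong`.
(2b) `j ≠ d`: the column `j` has sum 3, so exactly one more entry, `1`, at the row `l ≠ r`. `Alm C (n - 1) l d`.
`reg_strong` for `n` from `alm_bound` for `n`: there is an active row `i`, an entry `A i j ≠ 0`, and `cs A j = 3`. For all `i'` with `A i' j ≥ 1`: `Alm (rem A i' j) n i' j`.
`per_rem_sum`: `2 * A.permanent = ∑ i', A i' j * (rem A i' j).permanent ≥ 3 * (4/3) ^ n`.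
`reg_zero`: all rows have sum 1, so (blk) all columns have sum 1: the support is a permutation.
In all cases `Blk` has to be checked for the new matrix: the rows and columns which become inactive are `r` and `j`, and the only entry in them is the common one; the others stay
active or inactive.
-/

set_option autoImplicit false
set_option linter.unusedSectionVars false

namespace QFew

open Finset

variable {V : Type*} [Fintype V] [DecidableEq V]

/-- the nonzero entries are in active rows and columns or in inactive rows and columns -/
def Blk (A : Matrix V V ℕ) : Prop := ∀ i j, A i j ≠ 0 → (rs A i = 1 ↔ cs A j = 1)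

structure Reg (A : Matrix V V ℕ) (n : ℕ) : Prop where
  blk : Blk A
  row : ∀ i, rs A i = 3 ∨ rs A i = 1
  col : ∀ j, cs A j = 3 ∨ cs A j = 1
  num : (univ.filter (fun i => rs A i ≠ 1)).card = n

structure Alm (A : Matrix V V ℕ) (n : ℕ) (r d : V) : Prop where
  blk : Blk A
  rr : rs A r = 2
  cd : cs A d = 2
  row : ∀ i, i ≠ r → rs A i = 3 ∨ rs A i = 1
  col : ∀ j, j ≠ d → cs A j = 3 ∨ cs A j = 1
  num : (univ.filter (fun i => rs A i ≠ 1)).card = n


private theorem voor_split (f g : V → ℕ) (w : V) (h : ∀ y, y ≠ w → f y = g y) :
    ∑ y, f y + g w = ∑ y, g y + f w := by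
  have h1 : f w + ∑ y ∈ univ.erase w, f y = ∑ y, f y :=
    Finset.add_sum_erase univ f (mem_univ w)
  have h2 : g w + ∑ y ∈ univ.erase w, g y = ∑ y, g y :=
    Finset.add_sum_erase univ g (mem_univ w)
  have h3 : ∑ y ∈ univ.erase w, f y = ∑ y ∈ univ.erase w, g y :=
    Finset.sum_congr rfl (fun y hy => h y (Finset.ne_of_mem_erase hy))
  omega

private theorem voor_ex (f : V → ℕ) (h : ∑ y, f y ≠ 0) : ∃ y, f y ≠ 0 := by
  by_contra hc
  push Not at hc
  exact h (Finset.sum_eq_zero fun y _ => hc y)

private theorem voor_zero (f : V → ℕ) (h : ∑ y, f y = 0) (y : V) : f y = 0 :=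
  (Finset.sum_eq_zero_iff.1 h) y (mem_univ y)

private theorem voor_le (f : V → ℕ) (y : V) : f y ≤ ∑ y, f y :=
  Finset.single_le_sum (f := f) (fun _ _ => Nat.zero_le _) (mem_univ y)

private theorem voor_del (f : V → ℕ) (j : V) :
    ∑ y, (if y = j then 0 else f y) + f j = ∑ y, f y := by
  have h := voor_split (fun y => if y = j then 0 else f y) f j (fun y hy => if_neg hy)
  rw [h]
  simp

private theorem voor_one (f : V → ℕ) (h : ∑ y, f y = 1) :
    ∃ k, f k = 1 ∧ ∀ y, y ≠ k → f y = 0 := by
  obtain ⟨k, hk⟩ := voor_ex f (by omega)
  have h1 := voor_del f k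
  refine ⟨k, by omega, fun y hy => ?_⟩
  have h2 := voor_zero (fun y => if y = k then 0 else f y) (by omega) y
  simpa [hy] using h2

private theorem voor_two (f : V → ℕ) (h : ∑ y, f y = 2) :
    (∃ j, f j = 2 ∧ ∀ y, y ≠ j → f y = 0) ∨
    ∃ j k, j ≠ k ∧ f j = 1 ∧ f k = 1 ∧ ∀ y, y ≠ j → y ≠ k → f y = 0 := by
  obtain ⟨j, hj⟩ := voor_ex f (by omega)
  have h1 := voor_del f j
  by_cases h2 : f j = 2
  · left
    refine ⟨j, h2, fun y hy => ?_⟩
    have h3 := voor_zero (fun y => if y = j then 0 else f y) (by omega) y
    simpa [hy] using h3
  · right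
    have h3 := voor_le f j
    obtain ⟨k, hk, hk'⟩ := voor_one (fun y => if y = j then 0 else f y) (by omega)
    have hkj : k ≠ j := by
      rintro rfl
      simp at hk
    refine ⟨j, k, fun h => hkj h.symm, by omega, ?_, fun y hy hy' => ?_⟩
    · simpa [hkj] using hk
    · have h4 := hk' y hy'
      simpa [hy] using h4

private theorem dea_rr (A : Matrix V V ℕ) (r j : V) : rs (dea A r j) r = 1 := by
  unfold rs dea
  simp

private theorem dea_cj (A : Matrix V V ℕ) (r j : V) : cs (dea A r j) j = 1 := by
  unfold cs dea
  simp

private theorem dea_rs (A : Matrix V V ℕ) {r j x : V} (hx : x ≠ r) :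
    rs (dea A r j) x + A x j = rs A x := by
  have h := voor_split (fun y => dea A r j x y) (fun y => A x y) j
    (fun y hy => by simp [dea, hx, hy])
  unfold rs
  rw [h]
  simp [dea, hx]

private theorem dea_cs (A : Matrix V V ℕ) {r j y : V} (hy : y ≠ j) :
    cs (dea A r j) y + A r y = cs A y := by
  have h := voor_split (fun x => dea A r j x y) (fun x => A x y) r
    (fun x hx => by simp [dea, hx, hy])
  unfold cs
  rw [h]
  simp [dea, hy]

private theorem mrg_rr (A : Matrix V V ℕ) (r j k : V) : rs (mrg A r j k) r = 1 := by
  unfold rs mrg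
  simp

private theorem mrg_cj (A : Matrix V V ℕ) (r j k : V) : cs (mrg A r j k) j = 1 := by
  unfold cs mrg
  simp

private theorem mrg_rs (A : Matrix V V ℕ) {r j k x : V} (hjk : j ≠ k) (hx : x ≠ r) :
    rs (mrg A r j k) x = rs A x := by
  have h1 := voor_split (fun y => mrg A r j k x y)
    (fun y => if y = k then A x k + A x j else A x y) j
    (fun y hy => by simp [mrg, hx, hy])
  have h2 := voor_split (fun y => if y = k then A x k + A x j else A x y) (fun y => A x y) k
    (fun y hy => by simp [hy])
  have h3 : mrg A r j k x j = 0 := by simp [mrg, hx]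
  unfold rs
  simp only [if_true, hjk, if_false, h3] at h1 h2
  omega

private theorem mrg_ck (A : Matrix V V ℕ) {r j k : V} (hjk : j ≠ k) :
    cs (mrg A r j k) k + (A r k + A r j) = cs A k + cs A j := by
  have h1 := voor_split (fun x => mrg A r j k x k) (fun x => A x k + A x j) r
    (fun x hx => by simp [mrg, hx, Ne.symm hjk])
  have h3 : mrg A r j k r k = 0 := by simp [mrg, Ne.symm hjk]
  rw [Finset.sum_add_distrib] at h1
  unfold cs
  simp only [h3] at h1
  omega

private theorem mrg_cs (A : Matrix V V ℕ) {r j k y : V} (hy : y ≠ j) (hy' : y ≠ k) :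
    cs (mrg A r j k) y + A r y = cs A y := by
  have h := voor_split (fun x => mrg A r j k x y) (fun x => A x y) r
    (fun x hx => by simp [mrg, hx, hy, hy'])
  unfold cs
  rw [h]
  simp [mrg, hy]

private theorem rem_rs (A : Matrix V V ℕ) {i j : V} (h : A i j ≠ 0) :
    rs (rem A i j) i + 1 = rs A i := by
  have h1 := voor_split (fun y => rem A i j i y) (fun y => A i y) j
    (fun y hy => by simp [rem, hy])
  have h2 : rem A i j i j = A i j - 1 := by simp [rem]
  unfold rs
  simp only [h2] at h1
  omega

private theorem rem_rs' (A : Matrix V V ℕ) {i j x : V} (h : x ≠ i) :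
    rs (rem A i j) x = rs A x := by
  unfold rs rem
  simp [h]

private theorem rem_cs (A : Matrix V V ℕ) {i j : V} (h : A i j ≠ 0) :
    cs (rem A i j) j + 1 = cs A j := by
  have h1 := voor_split (fun x => rem A i j x j) (fun x => A x j) i
    (fun x hx => by simp [rem, hx])
  have h2 : rem A i j i j = A i j - 1 := by simp [rem]
  unfold cs
  simp only [h2] at h1
  omega

private theorem rem_cs' (A : Matrix V V ℕ) {i j y : V} (h : y ≠ j) :
    cs (rem A i j) y = cs A y := by
  unfold cs rem
  simp [h]

private theorem rem_ne {A : Matrix V V ℕ} {i j x y : V} (h : rem A i j x y ≠ 0) : A x y ≠ 0 := by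
  intro h0
  apply h
  unfold rem
  split_ifs with h1
  · rw [← h1.1, ← h1.2, h0]
  · exact h0

private theorem voor_num {A C : Matrix V V ℕ} {m : ℕ} {r : V}
    (hA : (univ.filter (fun i => rs A i ≠ 1)).card = m + 1) (hr : rs A r ≠ 1)
    (h : ∀ x, rs C x ≠ 1 ↔ (x ≠ r ∧ rs A x ≠ 1)) :
    (univ.filter (fun i => rs C i ≠ 1)).card = m := by
  have h1 : univ.filter (fun i => rs C i ≠ 1) = (univ.filter (fun i => rs A i ≠ 1)).erase r := by
    ext x
    rw [Finset.mem_erase, Finset.mem_filter, Finset.mem_filter]
    constructor
    · rintro ⟨_, hx⟩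
      exact ⟨((h x).1 hx).1, mem_univ _, ((h x).1 hx).2⟩
    · rintro ⟨hx, _, hx'⟩
      exact ⟨mem_univ _, (h x).2 ⟨hx, hx'⟩⟩
  rw [h1, Finset.card_erase_of_mem (by rw [Finset.mem_filter]; exact ⟨mem_univ _, hr⟩), hA]
  rfl

theorem reg_zero {A : Matrix V V ℕ} (h : Reg A 0) : 1 ≤ A.permanent := by
  have hr : ∀ i, rs A i = 1 := by
    intro i
    by_contra hi
    have h1 := Finset.card_eq_zero.1 h.num
    have h2 : i ∈ univ.filter (fun i => rs A i ≠ 1) := by
      rw [Finset.mem_filter]
      exact ⟨mem_univ _, hi⟩
    rw [h1] at h2
    exact Finset.notMem_empty _ h2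
  have hc : ∀ j, ∃ i, A i j ≠ 0 := by
    intro j
    refine voor_ex (fun i => A i j) ?_
    have h1 : cs A j ≠ 0 := by
      rcases h.col j with h1 | h1
      · omega
      · omega
    exact h1
  choose f hf using hc
  have hinj : Function.Injective f := by
    intro j j' hjj
    by_contra hne
    obtain ⟨k, hk, hk'⟩ := voor_one (fun y => A (f j) y) (hr (f j))
    have h1 : j = k := by
      by_contra h2
      exact hf j (hk' j h2)
    have h2 : j' = k := by
      by_contra h2
      refine hf j' ?_
      rw [← hjj]
      exact hk' j' h2
    exact hne (h1.trans h2.symm)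
  exact per_pos (Equiv.ofBijective f (Finite.injective_iff_bijective.1 hinj)) hf

private theorem alm_step {m : ℕ}
    (ihA : ∀ (A : Matrix V V ℕ) (r d : V), Alm A m r d → 4 ^ m ≤ 3 ^ m * A.permanent)
    (ihR : ∀ A : Matrix V V ℕ, Reg A m → 1 ≤ m → 3 * 4 ^ m ≤ 2 * 3 ^ m * A.permanent)
    {A : Matrix V V ℕ} {r d : V} (h : Alm A (m + 1) r d) :
    4 ^ (m + 1) ≤ 3 ^ (m + 1) * A.permanent := by
  have hr1 : rs A r ≠ 1 := by rw [h.rr]; omega
  have e4 : 4 ^ (m + 1) = 4 * 4 ^ m := by ring
  have e3 : 3 ^ (m + 1) = 3 * 3 ^ m := by ring
  have hrr : ∀ y, A r y ≠ 0 → cs A y ≠ 1 := fun y hy hc => hr1 ((h.blk r y hy).2 hc)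
  rcases voor_two (fun y => A r y) h.rr with ⟨j, hj, hj'⟩ | ⟨j, k, hjk, hj, hk, hjk'⟩
  · -- double entry
    have hj : A r j = 2 := hj
    have hper : A.permanent = 2 * (dea A r j).permanent := by
      rw [per_dea A hj', hj]
    by_cases hd : j = d
    · subst hd
      have hcol : ∀ x, x ≠ r → A x j = 0 := by
        intro x hx
        have h1 := voor_del (fun x => A x j) r
        have h2 := voor_zero (fun y => if y = r then 0 else A y j) (by
          have h3 : ∑ x, A x j = 2 := h.cd
          omega) x
        simpa [hx] using h2
      have hrs : ∀ x, x ≠ r → rs (dea A r j) x = rs A x := by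
        intro x hx
        have h1 := dea_rs A (j := j) hx
        rw [hcol x hx] at h1
        omega
      have hcs : ∀ y, y ≠ j → cs (dea A r j) y = cs A y := by
        intro y hy
        have h1 := dea_cs A (r := r) hy
        rw [hj' y hy] at h1
        omega
      have hreg : Reg (dea A r j) m := by
        refine ⟨?_, ?_, ?_, ?_⟩
        · intro x y hxy
          by_cases hx : x = r
          · subst hx
            have hy : y = j := by
              by_contra hy
              exact hxy (by simp [dea, hy])
            subst hy
            rw [dea_rr, dea_cj]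
          · have hy : y ≠ j := by
              rintro rfl
              exact hxy (by simp [dea, hx])
            rw [hrs x hx, hcs y hy]
            exact h.blk x y (by simpa [dea, hx, hy] using hxy)
        · intro x
          by_cases hx : x = r
          · subst hx
            exact Or.inr (dea_rr A x j)
          · rw [hrs x hx]
            exact h.row x hx
        · intro y
          by_cases hy : y = j
          · subst hy
            exact Or.inr (dea_cj A r y)
          · rw [hcs y hy]
            exact h.col y hy
        · refine voor_num h.num hr1 fun x => ?_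
          by_cases hx : x = r
          · subst hx
            rw [dea_rr]
            simp
          · rw [hrs x hx]
            simp [hx]
      rw [hper, e4, e3]
      rcases Nat.eq_zero_or_pos m with hm | hm
      · subst hm
        have h1 := reg_zero hreg
        simp only [pow_zero]
        omega
      · have h1 := ihR _ hreg hm
        have h2 : 0 < 4 ^ m := pow_pos (by norm_num) m
        nlinarith
    · have hcj : cs A j = 3 := by
        rcases h.col j hd with h1 | h1
        · exact h1
        · exact absurd h1 (hrr j (by omega))
      obtain ⟨l, hl, hl'⟩ := voor_one (fun x => if x = r then 0 else A x j) (by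
        have h1 := voor_del (fun x => A x j) r
        have h3 : ∑ x, A x j = 3 := hcj
        omega)
      have hlr : l ≠ r := by
        rintro rfl
        simp at hl
      have hlj : A l j = 1 := by simpa [hlr] using hl
      have hcol : ∀ x, x ≠ r → x ≠ l → A x j = 0 := by
        intro x hx hxl
        have h1 := hl' x hxl
        simpa [hx] using h1
      have hl3 : rs A l = 3 := by
        rcases h.row l hlr with h1 | h1
        · exact h1
        · have h2 := (h.blk l j (by omega)).1 h1
          omega
      have hl2 : rs (dea A r j) l = 2 := by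
        have h1 := dea_rs A (j := j) hlr
        omega
      have hrs : ∀ x, x ≠ r → x ≠ l → rs (dea A r j) x = rs A x := by
        intro x hx hxl
        have h1 := dea_rs A (j := j) hx
        rw [hcol x hx hxl] at h1
        omega
      have hcs : ∀ y, y ≠ j → cs (dea A r j) y = cs A y := by
        intro y hy
        have h1 := dea_cs A (r := r) hy
        rw [hj' y hy] at h1
        omega
      have hone : ∀ x, x ≠ r → (rs (dea A r j) x = 1 ↔ rs A x = 1) := by
        intro x hx
        by_cases hxl : x = l
        · subst hxl
          omega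
        · rw [hrs x hx hxl]
      have halm : Alm (dea A r j) m l d := by
        refine ⟨?_, hl2, ?_, ?_, ?_, ?_⟩
        · intro x y hxy
          by_cases hx : x = r
          · subst hx
            have hy : y = j := by
              by_contra hy
              exact hxy (by simp [dea, hy])
            subst hy
            rw [dea_rr, dea_cj]
          · have hy : y ≠ j := by
              rintro rfl
              exact hxy (by simp [dea, hx])
            rw [hone x hx, hcs y hy]
            exact h.blk x y (by simpa [dea, hx, hy] using hxy)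
        · rw [hcs d (fun h => hd h.symm)]
          exact h.cd
        · intro x hx
          by_cases hxr : x = r
          · subst hxr
            exact Or.inr (dea_rr A x j)
          · rw [hrs x hxr hx]
            exact h.row x hxr
        · intro y hy
          by_cases hyj : y = j
          · subst hyj
            exact Or.inr (dea_cj A r y)
          · rw [hcs y hyj]
            exact h.col y hy
        · refine voor_num h.num hr1 fun x => ?_
          by_cases hx : x = r
          · subst hx
            rw [dea_rr]
            simp
          · refine (not_congr (hone x hx)).trans ?_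
            simp [hx]
      have h1 := ihA _ l d halm
      rw [hper, e4, e3]
      have h2 : 0 < 4 ^ m := pow_pos (by norm_num) m
      nlinarith
  · -- two simple entries
    have hj : A r j = 1 := hj
    have hk : A r k = 1 := hk
    have hkj : k ≠ j := Ne.symm hjk
    have hper : (mrg A r j k).permanent = A.permanent := by
      refine per_mrg A hjk fun y => ?_
      by_cases h1 : y = j
      · subst h1
        simpa using hj
      · by_cases h2 : y = k
        · subst h2
          simpa using hk
        · simpa [h1, h2] using hjk' y h1 h2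
    have hcj : cs A j ≠ 1 := hrr j (by omega)
    have hck : cs A k ≠ 1 := hrr k (by omega)
    have hrs : ∀ x, x ≠ r → rs (mrg A r j k) x = rs A x := fun x hx => mrg_rs A hjk hx
    have hcs : ∀ y, y ≠ j → y ≠ k → cs (mrg A r j k) y = cs A y := by
      intro y hy hy'
      have h1 := mrg_cs A (r := r) hy hy'
      rw [hjk' y hy hy'] at h1
      omega
    have hckk := mrg_ck A (r := r) hjk
    have hkact : ∀ x, mrg A r j k x k ≠ 0 → x ≠ r ∧ rs A x ≠ 1 := by
      intro x hx
      have hxr : x ≠ r := by
        rintro rfl
        exact hx (by simp [mrg, hkj])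
      refine ⟨hxr, fun h1 => ?_⟩
      have h2 : mrg A r j k x k = A x k + A x j := by simp [mrg, hxr, hkj]
      by_cases h3 : A x k = 0
      · have h4 : A x j ≠ 0 := by omega
        exact hcj ((h.blk x j h4).1 h1)
      · exact hck ((h.blk x k h3).1 h1)
    have hblk : cs (mrg A r j k) k ≠ 1 → Blk (mrg A r j k) := by
      intro hk1 x y hxy
      by_cases hx : x = r
      · subst hx
        have hy : y = j := by
          by_contra hy
          exact hxy (by simp [mrg, hy])
        subst hy
        rw [mrg_rr, mrg_cj]
      · have hy : y ≠ j := by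
          rintro rfl
          exact hxy (by simp [mrg, hx])
        by_cases hyk : y = k
        · subst hyk
          rw [hrs x hx]
          exact iff_of_false (hkact x hxy).2 hk1
        · rw [hrs x hx, hcs y hy hyk]
          exact h.blk x y (by simpa [mrg, hx, hy, hyk] using hxy)
    have hrow : ∀ x, rs (mrg A r j k) x = 3 ∨ rs (mrg A r j k) x = 1 := by
      intro x
      by_cases hx : x = r
      · subst hx
        exact Or.inr (mrg_rr A x j k)
      · rw [hrs x hx]
        exact h.row x hx
    have hnum : (univ.filter (fun i => rs (mrg A r j k) i ≠ 1)).card = m := by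
      refine voor_num h.num hr1 fun x => ?_
      by_cases hx : x = r
      · subst hx
        rw [mrg_rr]
        simp
      · rw [hrs x hx]
        simp [hx]
    by_cases hd : d = j ∨ d = k
    · -- the column d is one of the two
      have hsum : cs A k + cs A j = 5 := by
        rcases hd with hd | hd
        · subst hd
          have h1 := h.cd
          rcases h.col k hkj with h2 | h2
          · omega
          · exact absurd h2 hck
        · subst hd
          have h1 := h.cd
          rcases h.col j hjk with h2 | h2
          · omega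
          · exact absurd h2 hcj
      have hk3 : cs (mrg A r j k) k = 3 := by omega
      have hreg : Reg (mrg A r j k) m := by
        refine ⟨hblk (by omega), hrow, ?_, hnum⟩
        intro y
        by_cases hy : y = j
        · subst hy
          exact Or.inr (mrg_cj A r y k)
        · by_cases hyk : y = k
          · subst hyk
            exact Or.inl hk3
          · rw [hcs y hy hyk]
            refine h.col y ?_
            rcases hd with hd | hd
            · rw [hd]; exact hy
            · rw [hd]; exact hyk
      have hm : 1 ≤ m := by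
        obtain ⟨x, hx⟩ := voor_ex (fun x => mrg A r j k x k) (by
          have h1 : ∑ x, mrg A r j k x k = 3 := hk3
          omega)
        have h1 := hkact x hx
        rw [← hnum]
        refine Finset.card_pos.2 ⟨x, ?_⟩
        rw [Finset.mem_filter]
        refine ⟨mem_univ _, ?_⟩
        rw [hrs x h1.1]
        exact h1.2
      have h1 := ihR _ hreg hm
      rw [← hper, e4, e3]
      have h2 : 0 < 4 ^ m := pow_pos (by norm_num) m
      nlinarith
    · push Not at hd
      obtain ⟨hdj, hdk⟩ := hd
      have hcj3 : cs A j = 3 := by
        rcases h.col j (Ne.symm hdj) with h1 | h1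
        · exact h1
        · exact absurd h1 hcj
      have hck3 : cs A k = 3 := by
        rcases h.col k (Ne.symm hdk) with h1 | h1
        · exact h1
        · exact absurd h1 hck
      have hk4 : cs (mrg A r j k) k = 4 := by omega
      have hB := hblk (by omega)
      have halm : ∀ i, mrg A r j k i k ≠ 0 → Alm (rem (mrg A r j k) i k) m i d := by
        intro i hi
        have hi1 := hkact i hi
        have hi3 : rs (mrg A r j k) i = 3 := by
          rcases hrow i with h1 | h1
          · exact h1
          · rw [hrs i hi1.1] at h1
            exact absurd h1 hi1.2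
        have hi2 : rs (rem (mrg A r j k) i k) i = 2 := by
          have h1 := rem_rs (mrg A r j k) hi
          omega
        have hk3 : cs (rem (mrg A r j k) i k) k = 3 := by
          have h1 := rem_cs (mrg A r j k) hi
          omega
        have hone : ∀ x, rs (rem (mrg A r j k) i k) x = 1 ↔ rs (mrg A r j k) x = 1 := by
          intro x
          by_cases hx : x = i
          · subst hx
            omega
          · rw [rem_rs' _ hx]
        have honec : ∀ y, cs (rem (mrg A r j k) i k) y = 1 ↔ cs (mrg A r j k) y = 1 := by
          intro y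
          by_cases hy : y = k
          · subst hy
            omega
          · rw [rem_cs' _ hy]
        refine ⟨?_, hi2, ?_, ?_, ?_, ?_⟩
        · intro x y hxy
          rw [hone, honec]
          exact hB x y (rem_ne hxy)
        · rw [rem_cs' _ hdk, hcs d hdj hdk]
          exact h.cd
        · intro x hx
          rw [rem_rs' _ hx]
          exact hrow x
        · intro y hy
          by_cases hyk : y = k
          · subst hyk
            exact Or.inl hk3
          · rw [rem_cs' _ hyk]
            by_cases hyj : y = j
            · subst hyj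
              exact Or.inr (mrg_cj A r y k)
            · rw [hcs y hyj hyk]
              exact h.col y hy
        · rw [← hnum]
          refine congrArg Finset.card (Finset.filter_congr fun x _ => ?_)
          exact not_congr (hone x)
      have hs := per_rem_sum (mrg A r j k) k
      rw [hk4] at hs
      have hle : ∑ i, mrg A r j k i k * 4 ^ m ≤
          ∑ i, 3 ^ m * (mrg A r j k i k * (rem (mrg A r j k) i k).permanent) := by
        refine Finset.sum_le_sum fun i _ => ?_
        by_cases hi : mrg A r j k i k = 0
        · rw [hi]
          simp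
        · have h1 := ihA _ i d (halm i hi)
          calc mrg A r j k i k * 4 ^ m ≤
              mrg A r j k i k * (3 ^ m * (rem (mrg A r j k) i k).permanent) :=
                Nat.mul_le_mul_left _ h1
            _ = _ := by ring
      rw [← Finset.mul_sum, ← Finset.sum_mul] at hle
      have h4 : ∑ i, mrg A r j k i k = 4 := hk4
      rw [h4] at hle
      rw [← hper, e4, e3]
      have h5 : ∑ i, mrg A r j k i k * (rem (mrg A r j k) i k).permanent =
          3 * (mrg A r j k).permanent := by omega
      rw [h5] at hle
      calc 4 * 4 ^ m ≤ 3 ^ m * (3 * (mrg A r j k).permanent) := hle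
        _ = 3 * 3 ^ m * (mrg A r j k).permanent := by ring

private theorem reg_step {n : ℕ}
    (hA : ∀ (A : Matrix V V ℕ) (r d : V), Alm A n r d → 4 ^ n ≤ 3 ^ n * A.permanent)
    {A : Matrix V V ℕ} (h : Reg A n) (hn : 1 ≤ n) :
    3 * 4 ^ n ≤ 2 * 3 ^ n * A.permanent := by
  obtain ⟨i, hi⟩ := Finset.card_pos.1 (by rw [h.num]; exact hn)
  rw [Finset.mem_filter] at hi
  obtain ⟨j, hj⟩ := voor_ex (fun y => A i y) (by
    have h1 : rs A i ≠ 0 := by
      rcases h.row i with h1 | h1
      · omega
      · omega
    exact h1)
  have hc1 : cs A j ≠ 1 := fun h1 => hi.2 ((h.blk i j hj).2 h1)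
  have hc3 : cs A j = 3 := by
    rcases h.col j with h1 | h1
    · exact h1
    · exact absurd h1 hc1
  have halm : ∀ x, A x j ≠ 0 → Alm (rem A x j) n x j := by
    intro x hx
    have hx1 : rs A x ≠ 1 := fun h1 => hc1 ((h.blk x j hx).1 h1)
    have hx3 : rs A x = 3 := by
      rcases h.row x with h1 | h1
      · exact h1
      · exact absurd h1 hx1
    have hx2 : rs (rem A x j) x = 2 := by
      have h1 := rem_rs A hx
      omega
    have hj2 : cs (rem A x j) j = 2 := by
      have h1 := rem_cs A hx
      omega
    have hone : ∀ z, rs (rem A x j) z = 1 ↔ rs A z = 1 := by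
      intro z
      by_cases hz : z = x
      · subst hz
        omega
      · rw [rem_rs' _ hz]
    have honec : ∀ y, cs (rem A x j) y = 1 ↔ cs A y = 1 := by
      intro y
      by_cases hy : y = j
      · subst hy
        omega
      · rw [rem_cs' _ hy]
    refine ⟨?_, hx2, hj2, ?_, ?_, ?_⟩
    · intro z y hzy
      rw [hone, honec]
      exact h.blk z y (rem_ne hzy)
    · intro z hz
      rw [rem_rs' _ hz]
      exact h.row z
    · intro y hy
      rw [rem_cs' _ hy]
      exact h.col y
    · rw [← h.num]
      refine congrArg Finset.card (Finset.filter_congr fun x _ => ?_)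
      exact not_congr (hone x)
  have hs := per_rem_sum A j
  rw [hc3] at hs
  have hle : ∑ i, A i j * 4 ^ n ≤ ∑ i, 3 ^ n * (A i j * (rem A i j).permanent) := by
    refine Finset.sum_le_sum fun i _ => ?_
    by_cases hi : A i j = 0
    · rw [hi]
      simp
    · have h1 := hA _ i j (halm i hi)
      calc A i j * 4 ^ n ≤ A i j * (3 ^ n * (rem A i j).permanent) := Nat.mul_le_mul_left _ h1
        _ = _ := by ring
  rw [← Finset.mul_sum, ← Finset.sum_mul] at hle
  have h4 : ∑ i, A i j = 3 := hc3
  rw [h4] at hle
  have h5 : ∑ i, A i j * (rem A i j).permanent = 2 * A.permanent := by omega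
  rw [h5] at hle
  calc 3 * 4 ^ n ≤ 3 ^ n * (2 * A.permanent) := hle
    _ = 2 * 3 ^ n * A.permanent := by ring

theorem voorhoeve (n : ℕ) :
    (∀ (A : Matrix V V ℕ) (r d : V), Alm A n r d → 4 ^ n ≤ 3 ^ n * A.permanent) ∧
    (∀ A : Matrix V V ℕ, Reg A n → 1 ≤ n → 3 * 4 ^ n ≤ 2 * 3 ^ n * A.permanent) := by
  induction n with
  | zero =>
    refine ⟨fun A r d h => ?_, fun A _ h => absurd h (by omega)⟩
    exfalso
    have h1 := Finset.card_eq_zero.1 h.num
    have h2 : r ∈ univ.filter (fun i => rs A i ≠ 1) := by
      rw [Finset.mem_filter]
      refine ⟨mem_univ _, ?_⟩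
      rw [h.rr]
      omega
    rw [h1] at h2
    exact Finset.notMem_empty _ h2
  | succ m ih =>
    have hA : ∀ (A : Matrix V V ℕ) (r d : V), Alm A (m + 1) r d →
        4 ^ (m + 1) ≤ 3 ^ (m + 1) * A.permanent := fun A r d h => alm_step ih.1 ih.2 h
    exact ⟨hA, fun A h hn => reg_step hA h hn⟩

theorem reg_bound {A : Matrix V V ℕ} {n : ℕ} (h : Reg A n) : 4 ^ n ≤ 3 ^ n * A.permanent := by
  rcases Nat.eq_zero_or_pos n with rfl | hn
  · simpa using reg_zero h
  · have h1 := (voorhoeve n).2 A h hn
    nlinarith [h1, Nat.zero_le (4 ^ n)]

end QFew
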